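import Pool.Agent.helper36.MP.SpecC
import Pool.Agent.helper16.Multibrot.Defs

/-!
# Project mp: (MP_af9036_an): part Z (application to the parameter plane)

Paper proof /team-store/MP_af9036_strip_helper36.md, sections 1 and 8, quoted as [paper, (x.y)].
File `Pool/Agent/<seat>/MP/XX.lean`, `import Pool.Agent.helper36.MP.SpecZ`, `namespace MPS`,
`theorem XX (h : YY_stmt) ... : XX_stmt`. Any other statement (also of the earlier Spec files) may be a hypothesis (no circles).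
-/

set_option autoImplicit false

open Complex Metric Set Filter Topology MeasureTheory

noncomputable section

namespace MPS

open Pool.Agent.helper16.Multibrot

/-- the map `z ^ n + c`. -/
def fc (n : ℕ) (c : ℂ) (w : ℂ) : ℂ := w ^ n + c

/-- the derivative of the `k`-th iterate at `z`. -/
def mlt (n k : ℕ) (c z : ℂ) : ℂ := deriv ((fc n c)^[k]) z

/-- the direction of `ρ` is at distance at least `d` from the roots of unity of orders `≤ 5` (in the sense used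
here). -/
def Sep (d : ℝ) (ρ : ℂ) : Prop := ∀ j ∈ Finset.Icc (1 : ℕ) 5, d ≤ ‖(ρ / ‖ρ‖) ^ j - 1‖

/-- ZCYC: periodic points and cycles.
PROOF. `b i = (fc n c)^[i.val] z`; injective on `ZMod k` as the minimal period is `k`; chain rule `mlt = ∏ fd n (b i)` (`deriv` of an iterate;
reindex `Finset.range k` by `ZMod k`); if `mlt ≠ 0` then no `b i` is `0`. -/
def ZCYC_stmt : Prop := ∀ (n k : ℕ) [NeZero k] (c z : ℂ), 2 ≤ n →
  Function.minimalPeriod (fc n c) z = k →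
  ∃ b : ZMod k → ℂ, Function.Injective b ∧ (∀ i, b i ^ n + c = b (i + 1)) ∧ b 0 = z ∧
    (∀ j : ℕ, b (j : ZMod k) = (fc n c)^[j] z) ∧ rho n b = mlt n k c z ∧
    (mlt n k c z ≠ 0 → IsCyc n c b)

/-- ZL: the logarithmic derivative of the multiplier is `∑ g i` [paper, section 1].
PROOF. `b_{i+1}' = fd (b i) b_i' + 1`; `ρ'/ρ = ∑ fdd (b i) b_i'/fd (b i) = ∑ (g i - fd (b i) g (i+1)) b_i' = ∑ g i b_i' - ∑ g (i+1) (b_{i+1}' - 1) = ∑ g (i+1)`. -/
def ZL_stmt : Prop := ∀ (n k : ℕ) [NeZero k] (U : Set ℂ) (b : ℂ → ZMod k → ℂ) (c : ℂ)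
  (g : ZMod k → ℂ), 2 ≤ n → IsOpen U → c ∈ U → (∀ i, DifferentiableOn ℂ (fun c' => b c' i) U) →
  (∀ c' ∈ U, ∀ i, b c' i ^ n + c' = b c' (i + 1)) → (∀ i, b c i ≠ 0) →
  (∀ i, g (i + 1) = g i / fd n (b c i) - fdd n (b c i) / fd n (b c i) ^ 2) →
  deriv (fun c' => rho n (b c')) c / rho n (b c) = ∑ i, g i

/-- ZBIG: for `‖c‖ ≥ 3` all cycles are strongly repelling.
PROOF. `M = max ‖z_i‖` over the cycle. `M^n = ‖z_{j+1} - c‖ ≤ M + ‖c‖` where `‖z_j‖ = M`, so (`M ≤ 1` or) `M² ≤ M + ‖c‖`, `M ≤ (1+√(1+4‖c‖))/2`, and `‖z_i‖^n ≥ ‖c‖ - M ≥ 0.69` for all `i` (the function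
`C - (1+√(1+4C))/2` is increasing, `0.697` at `C = 3`). So `‖fd n z_i‖ = n ‖z_i‖^(n-1) ≥ 3/2`: for `n = 2` `2·√0.69 ≥ 1.66`, for `n ≥ 3`: `‖z_i‖^(n-1) ≥ 0.69` (also if `‖z_i‖ ≥ 1`), `3·0.69 ≥ 2`. -/
def ZBIG_stmt : Prop := ∀ (n k : ℕ) (c z : ℂ), 2 ≤ n → 0 < k → 3 ≤ ‖c‖ → (fc n c)^[k] z = z →
  (3 / 2 : ℝ) ^ k ≤ ‖mlt n k c z‖

/-- ZK1: fixed points.
PROOF. `ρ = n z^(n-1)`, `z' (1 - ρ) = 1`, `ρ'/ρ = (n-1) z'/z = (n-1)/(z (1-ρ))`, `‖z‖ < 4` (TBD). If `log‖ρ‖ < 1/12` then `‖ρ‖ < 2` and `‖ρ'/ρ‖ ≥ 1/12`. -/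
def ZK1_stmt : Prop := ∀ (n : ℕ) (U : Set ℂ) (z : ℂ → ℂ), 2 ≤ n → IsOpen U →
  DifferentiableOn ℂ z U → (∀ c ∈ U, fc n c (z c) = z c) → ∀ c ∈ U, ‖c‖ ≤ 3 →
  1 < ‖mlt n 1 c (z c)‖ →
    1 / 12 ≤ Real.log ‖mlt n 1 c (z c)‖ + ‖deriv (fun c' => mlt n 1 c' (z c')) c / mlt n 1 c (z c)‖

/-- FA: the universal strip (Theorem A).
PROOF. `‖c‖ ≥ 3`: ZBIG, `log (3/2)`. `‖c‖ < 3`, `k = 1`: ZK1. `k ≥ 2`: `b c' i = (fc n c')^[i.val] (z c')` on `U ∩ {mlt ≠ 0}` (open, contains `c`), ZCYC, TG (`ρ ≠ 1`), ZL, THA. -/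
def FA_stmt : Prop := ∀ n : ℕ, 2 ≤ n → ∀ d > (0 : ℝ), ∃ ε > (0 : ℝ), ∀ (k : ℕ) (U : Set ℂ)
  (z : ℂ → ℂ), 0 < k → IsOpen U → DifferentiableOn ℂ z U →
  (∀ c ∈ U, Function.minimalPeriod (fc n c) (z c) = k) → ∀ c ∈ U, 1 < ‖mlt n k c (z c)‖ →
  Sep d (mlt n k c (z c)) →
    ε ≤ Real.log ‖mlt n k c (z c)‖ + ‖deriv (fun c' => mlt n k c' (z c')) c / mlt n k c (z c)‖

/-- ZR: the multiplier equation is algebraic [paper, (8.1)].
PROOF. Over the ring `A = ℂ[X][Y]` (parameter `X`, multiplier `Y`) let `F = f^k(Z) - Z`, `M = (f^k)'(Z) - Y` in `A[Z]`; `R` = resultant of `F` and `M` in `Z`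
(`Mathlib.RingTheory.Polynomial.Resultant.Basic`: `resultant_map_map`, `resultant_eq_zero_iff` or `resultant_eq_prod_eval`, `F` is monic of degree `n^k`, `M` has degree `n^k - 1` with constant leading coefficient
`n^k`). Recursion: `f^(k+1) = (f^k)^n + X`, `(f^(k+1))' = n (f^k)^(n-1) (f^k)'`. -/
def ZR_stmt : Prop := ∀ (n k : ℕ), 2 ≤ n → 0 < k → ∃ R : Polynomial (Polynomial ℂ), ∀ c l : ℂ,
  ((R.eval (Polynomial.C l)).eval c = 0 ↔ ∃ z : ℂ, (fc n c)^[k] z = z ∧ mlt n k c z = l)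

/-- ZN: in a disc of parameters without attracting cycles all cycles are repelling [paper, (8.1)].
PROOF. Suppose `c₁` in the ball, `l₁ = mlt n k c₁ z₁`, `‖l₁‖ ≤ 1`; `‖l₁‖ < 1` is excluded, so `‖l₁‖ = 1`. `R` from ZR. `p_l(X) = R.eval (C l)` has no zero in the ball for `‖l‖ < 1` and `p_{l₁} c₁ = 0`. If
`p_{l₁} ≠ 0`, take a small circle about `c₁` on which `‖p_{l₁}‖ ≥ m > 0`; for `l = t l₁`, `t → 1⁻`, `‖p_l‖ ≥ m/2` on the circle (coefficients are continuous in `l`) and `p_l` has no zero in the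
disc, so `‖p_l c₁‖ ≥ m/2` (maximum principle for `1/p_l`), but `p_l c₁ → 0`. So `p_{l₁} = 0`, i.e. also for `c = 3` some `k`-periodic point has multiplier `l₁`, contradiction to ZBIG. -/
def ZN_stmt : Prop := ∀ (n : ℕ) (c : ℂ) (r : ℝ), 2 ≤ n → Disjoint (ball c r) (hyperbolic n) →
  ∀ c' ∈ ball c r, ∀ (k : ℕ) (z : ℂ), 0 < k → (fc n c')^[k] z = z → 1 < ‖mlt n k c' z‖

/-- ZC0: holomorphic continuation of simple roots over a disc.
PROOF. Locally: at `c₁` the `N` simple roots `ζ_1..ζ_N` continue holomorphically to a disc `D₁` about `c₁`, remain distinct and are all the roots (`N = natDegree`). So a root function on a connected subset of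
`D₁` coincides with one of them. Let `s` be the supremum of the radii `≤ r` such that a root function `z` with `z c = z₀` exists on `ball c s` (uniqueness, gluing: it exists on `ball c s`). If
`s < r`: at every `c₁` with `‖c₁ - c‖ = s` extend to `D₁` (`D₁ ∩ ball c s` convex); the extensions glue (two of the discs `D₁`, if they meet, meet `ball c s` together, or use uniqueness on convex sets)
and by compactness give a larger ball. Alternatively: `{(c', z) | P c' z = 0} → ball` is a proper local homeomorphism, a covering; lift the identity of the simply connected ball. Alternatively: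
implicit function theorem along radii with a Lebesgue number. -/
def ZC0_stmt : Prop := ∀ (N : ℕ) (c : ℂ) (r : ℝ) (P : ℂ → Polynomial ℂ), 0 < r →
  (∀ c' ∈ ball c r, (P c').Monic ∧ (P c').natDegree = N ∧
    ∀ z, (P c').eval z = 0 → (P c').derivative.eval z ≠ 0) →
  (∀ m : ℕ, DifferentiableOn ℂ (fun c' => (P c').coeff m) (ball c r)) →
  ∀ z₀ : ℂ, (P c).eval z₀ = 0 → ∃ z : ℂ → ℂ, DifferentiableOn ℂ z (ball c r) ∧ z c = z₀ ∧
    ∀ c' ∈ ball c r, (P c').eval (z c') = 0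

/-- ZC: continuation of repelling cycles over a disc [paper, (8.2)].
PROOF. ZC0 for `P c' = f^k(X) - X` (monic of degree `n^k`, coefficients polynomial in `c'`, derivative at a root `= mlt - 1 ≠ 0`). The minimal period stays `k`: if `(fc n c')^[k'] (z c') = z c'` for some
`k' ∣ k`, `k' < k`, then near `c'` the root of `f^k'(X) - X` continuing `z c'` (implicit function theorem; its multiplier is `≠ 1`, since its power is `mlt n k`) is also the root `z` of `f^k(X) - X` (uniqueness of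
simple roots); so the holomorphic function `c'' ↦ (fc n c'')^[k'] (z c'') - z c''` vanishes near `c'`, hence on the ball, also at `c`: contradiction. -/
def ZC_stmt : Prop := ∀ (n k : ℕ) (c : ℂ) (r : ℝ), 2 ≤ n → 0 < k → 0 < r →
  (∀ c' ∈ ball c r, ∀ z, (fc n c')^[k] z = z → 1 < ‖mlt n k c' z‖) →
  ∀ z₀, Function.minimalPeriod (fc n c) z₀ = k → ∃ z : ℂ → ℂ, DifferentiableOn ℂ z (ball c r) ∧
    z c = z₀ ∧ ∀ c' ∈ ball c r, Function.minimalPeriod (fc n c') (z c') = k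

/-- ZBC: Schwarz lemma for functions of modulus `> 1`.
PROOF. `L` with `exp L = ρ` on the ball (`exists_lift_exp`), `re L > 0`; `φ = (L - L c)/(L + conj (L c))` maps the ball to the unit disc, `φ c = 0`, so `‖φ' c‖ ≤ 1/r` and `φ' c = L' c/(2 re (L c))`. -/
def ZBC_stmt : Prop := ∀ (ρ : ℂ → ℂ) (c : ℂ) (r : ℝ), 0 < r → DifferentiableOn ℂ ρ (ball c r) →
  (∀ c' ∈ ball c r, 1 < ‖ρ c'‖) → ‖deriv ρ c / ρ c‖ ≤ 2 * Real.log ‖ρ c‖ / r

/-- FB: Theorem B.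
PROOF. FA gives `ε'`; `ε = ε'/3`. ZN, ZC: the periodic point continues to `z` on `ball c r`, `ρ c' = mlt n k c' (z c')` is holomorphic with modulus `> 1`. FA, ZBC: `ε' ≤ log‖ρ‖ + 2 log‖ρ‖/r ≤ 3 log‖ρ‖/r`. -/
def FB_stmt : Prop := ∀ n : ℕ, 2 ≤ n → ∀ d > (0 : ℝ), ∃ ε > (0 : ℝ), ∀ (c : ℂ) (r : ℝ), 0 < r →
  r ≤ 1 → Disjoint (ball c r) (hyperbolic n) → ∀ (k : ℕ) (z : ℂ), 0 < k →
  Function.minimalPeriod (fc n c) z = k → Sep d (mlt n k c z) →
    ε * r ≤ Real.log ‖mlt n k c z‖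

/-- FD: distance form of Theorem B.
PROOF. `‖c‖ ≤ 2` for `c ∈ multibrot n` (see `Pool.Agent.LeadMultibrot.norm_pow_le_two`), `0 ∈ hyperbolic n`. With `ε` of FB (`≤ 1`) take `K = 2/ε`. If `‖ρ‖ ≤ 1`: excluded by hypothesis. Let `l = log‖ρ‖`. If `l ≥ ε`: `infDist ≤ 2 ≤ K l`.
Else `r₀ = l/ε < 1`; for `r₀ < r ≤ 1` the ball `ball c r` meets `hyperbolic n` by FB, so `infDist ≤ r₀`. -/
def FD_stmt : Prop := ∀ n : ℕ, 2 ≤ n → ∀ d > (0 : ℝ), ∃ K : ℝ, ∀ c ∈ multibrot n, ∀ (k : ℕ) (z : ℂ),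
  0 < k → Function.minimalPeriod (fc n c) z = k → 1 < ‖mlt n k c z‖ → Sep d (mlt n k c z) →
    infDist c (hyperbolic n) ≤ K * Real.log ‖mlt n k c z‖

/-- FC: Theorem C.
PROOF. If `c ∉ closure (hyperbolic n)` there is `r ≤ 1` with `Disjoint (ball c r) (hyperbolic n)`. `d = ½ min_j ‖ζ^j - 1‖ > 0`; for `ρ` near `ζ`: `Sep d ρ` (continuity of `ρ ↦ (ρ/‖ρ‖)^j` at `ζ`), so `log‖ρ‖ ≥ ε r` by FB,
while `log‖ρ‖ → 0`. -/
def FC_stmt : Prop := ∀ n : ℕ, 2 ≤ n → ∀ c ζ : ℂ, ‖ζ‖ = 1 →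
  (∀ j ∈ Finset.Icc (1 : ℕ) 5, ζ ^ j ≠ 1) →
  (∀ η > (0 : ℝ), ∃ (k : ℕ) (z : ℂ), 0 < k ∧ Function.minimalPeriod (fc n c) z = k ∧
    ‖mlt n k c z - ζ‖ < η) → c ∈ closure (hyperbolic n)

end MPS
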