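import Pool.Agent.helper36.MP.Defs

/-!
# Project mp: (MP_af9036_an): part N (natural coordinates), part T (algebra), part M (mass)

Paper proof /team-store/MP_af9036_strip_helper36.md, quoted as [paper, (x.y)].
File `Pool/Agent/<seat>/MP/XX.lean`, `import Pool.Agent.helper36.MP.SpecN`, `namespace MPS`,
`theorem XX (h : YY_stmt) ... : XX_stmt`. Any other statement may be a hypothesis (no circles).
-/

set_option autoImplicit false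

open Complex Metric Set Filter Topology MeasureTheory

noncomputable section

namespace MPS

/-! ## Part N -/

/-- NL0: local uniqueness of natural maps. If `χ₁ w₁ = χ₂ w₂` and the derivatives agree up to the
sign `s`, then `χ₁ (w₁+h) = χ₂ (w₂ + s h)` for small `h`.
PROOF. `z₀ = χ₁ w₁`, `B(z₀) ≠ 0` (from `eq`), `B = BB b g` is holomorphic near `z₀` (`z₀ ≠ b j`). Take
a holomorphic square root `σ` of `B` near `z₀` (`σ z = exp(½ log(B z / B z₀)) * σ₀`, `σ₀² = B z₀`) and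
a primitive `F` of `σ` on a small ball (`F' = σ ≠ 0`, so `F` is injective near `z₀`, e.g.
`HasStrictDerivAt.toOpenPartialHomeomorph`/`...eventually_injOn`). `(F ∘ χ₁)(w₁ + h)` has derivative `σ(χ₁) χ₁'`, whose
square is `1`; it is continuous, so it is a constant sign near `0` (same sign as at `h = 0`); likewise
`F(χ₂(w₂+s h))` has derivative `s σ(χ₂) χ₂'`, with the same value at `h = 0`. Hence both are
`F z₀ + ε h` and injectivity of `F` gives the claim. -/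
def NL0_stmt : Prop := ∀ (k : ℕ) [NeZero k] (b g : ZMod k → ℂ) (χ₁ χ₂ : ℂ → ℂ) (Ω₁ Ω₂ : Set ℂ)
  (w₁ w₂ s : ℂ), IsOpen Ω₁ → IsOpen Ω₂ → IsNat b g χ₁ Ω₁ → IsNat b g χ₂ Ω₂ → w₁ ∈ Ω₁ → w₂ ∈ Ω₂ →
  χ₁ w₁ = χ₂ w₂ → (s = 1 ∨ s = -1) → deriv χ₁ w₁ = s * deriv χ₂ w₂ →
  ∃ ε > (0 : ℝ), ∀ h ∈ ball (0 : ℂ) ε, χ₁ (w₁ + h) = χ₂ (w₂ + s * h)

/-- NU: uniqueness of natural maps along paths and on connected sets [paper, (2.2)].
PROOF. `deriv χ₁ w₁ ^2 = 1 / B = deriv χ₂ w₂ ^2` gives the sign. By NL0 the set of `h ∈ K` where values and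
derivatives (`deriv χ₁ (w₁+h) = s * deriv χ₂ (w₂+s h)`) agree is open; it is closed in `K` by continuity, and
contains `0`. Same for the segment `t ↦ t h₀`, `t ∈ [0,1]`. -/
def NU_stmt : Prop := ∀ (k : ℕ) [NeZero k] (b g : ZMod k → ℂ) (χ₁ χ₂ : ℂ → ℂ) (Ω₁ Ω₂ : Set ℂ)
  (w₁ w₂ : ℂ), IsOpen Ω₁ → IsOpen Ω₂ → IsNat b g χ₁ Ω₁ → IsNat b g χ₂ Ω₂ → w₁ ∈ Ω₁ → w₂ ∈ Ω₂ →
  χ₁ w₁ = χ₂ w₂ → ∃ s : ℂ, (s = 1 ∨ s = -1) ∧ deriv χ₁ w₁ = s * deriv χ₂ w₂ ∧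
    (∀ K : Set ℂ, IsOpen K → IsPreconnected K → (0 : ℂ) ∈ K →
      (∀ h ∈ K, w₁ + h ∈ Ω₁ ∧ w₂ + s * h ∈ Ω₂) → ∀ h ∈ K, χ₁ (w₁ + h) = χ₂ (w₂ + s * h)) ∧
    (∀ h₀ : ℂ, (∀ t ∈ Icc (0 : ℝ) 1, w₁ + t * h₀ ∈ Ω₁ ∧ w₂ + s * (t * h₀) ∈ Ω₂) →
      χ₁ (w₁ + h₀) = χ₂ (w₂ + s * h₀) ∧ deriv χ₁ (w₁ + h₀) = s * deriv χ₂ (w₂ + s * h₀))

/-- NR: local existence of natural maps at regular points, with uniform size [paper, (2.1)].
PROOF. As in NL0 take `σ₀² = B(z*)`, a holomorphic root `σ` of `B` and a primitive `F` of `σ` on a ball around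
`z*`; `F` is a homeomorphism of a neighbourhood of `z*` onto a neighbourhood of `F z*` with holomorphic inverse `F⁻¹`.
For `z₁` near `z*` and `σ₁² B(z₁) = 1` we have `σ₁ = ±1/σ(z₁)`; put `χ w = F⁻¹ (F z₁ ± w)`. -/
def NR_stmt : Prop := ∀ (k : ℕ) [NeZero k] (b g : ZMod k → ℂ) (zs : ℂ), (∀ j, zs ≠ b j) →
  BB b g zs ≠ 0 → ∃ r > (0 : ℝ), ∃ ε > (0 : ℝ), ∀ z₁ ∈ ball zs ε, ∀ σ : ℂ, σ ^ 2 * BB b g z₁ = 1 →
    ∃ χ : ℂ → ℂ, χ 0 = z₁ ∧ deriv χ 0 = σ ∧ IsNat b g χ (ball 0 r)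

/-- NP: local existence at a pole [paper, (2.3)].
PROOF. Near `b i`: `(z - b i)^2 B(z) = 1 + g_i (z - b i) + (z-b i)^2 (...)` is holomorphic, equal to `1` at `b i`
(`b` injective, so the other terms are regular). Let `s(z)` be its holomorphic square root with `s(b i) = 1`,
`H(z) = (s(z)-1)/(z-b i)` (holomorphic), `K` a primitive of `H` with `K(b i) = 0`, `U(z) = (z-b i) exp(K z)`. Then
`U'/U = s(z)/(z-b i)`, `(U'/U)^2 = B`, `U(b i) = 0`, `U'(b i) = 1`. `ψ = U⁻¹`. -/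
def NP_stmt : Prop := ∀ (k : ℕ) [NeZero k] (b g : ZMod k → ℂ) (i : ZMod k), Function.Injective b →
  ∃ r > (0 : ℝ), ∃ ψ : ℂ → ℂ, PN b g i ψ r ∧ deriv ψ 0 = 1

/-- NH: elementary facts. (a) `hat ψ` is natural on a half plane; (b) scaling; (c) uniqueness of
pole maps with the same derivative; (d) restriction.
PROOF. (a),(b),(d) computation. (c) Write `ψ₁ = ψ₂ ∘ κ` near `0` with `κ` holomorphic, `κ 0 = 0`, `κ' 0 = 1` (`ψ₂` is
locally invertible at `0`); `(u κ'/κ)^2 = 1` for `u ≠ 0` and `u κ'/κ → 1`, so `u κ' = κ`, `κ u = u` near `0`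
(the derivative of `κ/u` vanishes). Then identity theorem on the ball of radius `min r₁ r₂`. -/
def NH_stmt : Prop := ∀ (k : ℕ) [NeZero k] (b g : ZMod k → ℂ) (i : ZMod k) (ψ : ℂ → ℂ) (r : ℝ),
  PN b g i ψ r → IsNat b g (hat ψ) {w | w.re < Real.log r} ∧
    (∀ l : ℂ, l ≠ 0 → PN b g i (fun u => ψ (l * u)) (r / ‖l‖)) ∧
    (∀ (ψ₂ : ℂ → ℂ) (r₂ : ℝ), PN b g i ψ₂ r₂ → deriv ψ 0 = deriv ψ₂ 0 → EqOn ψ ψ₂ (ball 0 (min r r₂))) ∧
    (∀ r' : ℝ, 0 < r' → r' ≤ r → PN b g i ψ r')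

/-- NLB: bound of the radius by Landau's theorem [paper, (2.4)].
PROOF. `F = (ψ - b l)/(b i - b l)` omits `0`; `F u = 1` only for `u = 0`; let `s` be the square root of `F` with
`s 0 = 1` (`Pool.Agent.helper98.ILF.exists_lift_pow`). `-s` omits `0` and `1`
(`s u = -1` gives `F u = 1`, `u = 0`, `s = 1`). `Pool.Agent.helper54.CR.landau` at `0`: `‖s' 0‖ ≤ 4000/r`, and
`s' 0 = ψ' 0 / (2 (b i - b l))`. -/
def NLB_stmt : Prop := ∀ (k : ℕ) [NeZero k] (b g : ZMod k → ℂ) (i l : ZMod k) (ψ : ℂ → ℂ) (r : ℝ),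
  Function.Injective b → l ≠ i → PN b g i ψ r → ‖deriv ψ 0‖ * r ≤ 8000 * ‖b i - b l‖

/-- NM: existence of maximal natural maps.
PROOF. The radii `r` for which there is a `PN`-map with `ψ' 0 = 1` form a non empty (NP) set bounded by NLB (use
`l = i + 1 ≠ i` as `k ≥ 2`); let `s` be its supremum. By NH (c) the maps agree, so they glue to a `PN`-map `ψs` on
`ball 0 s` (choose for every `r < s` a map; define `ψs u` by the map with radius `(‖u‖+s)/2`). `ψ u = ψs (s u)`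
is a `PN`-map on the unit disc by NH (b); a `PN`-map `ψ'` with the same derivative on a disc of radius `r > 1` would give by
scaling one with derivative `1` and radius `r s > s`. -/
def NM_stmt : Prop := ∀ (k : ℕ) [NeZero k] (b g : ZMod k → ℂ) (i : ZMod k), 2 ≤ k →
  Function.Injective b → ∃ ψ : ℂ → ℂ, MaxPN b g i ψ

/-- NG: growth of natural maps [paper, (2.4)].
PROOF. As in NLB with `l = i+1`: at every `u` of the unit disc, Landau on `ball u (1-‖u‖)`: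
`‖s'/s‖ ≤ 4000/(1-‖u‖) (1+|log ‖s u‖|)`. Along the radius `t ↦ t u/‖u‖` the function `L = log‖s‖` satisfies
`|L'| ≤ 4000/(1-t) (1+|L|)`, `L(0) = 0`; so `1+|L| ≤ (1-t)^(-4000)` (Gronwall, or compare with
`(1-t)^(-4001)` by a first-crossing argument). Hence `‖ψ u - b l‖ = ‖b i-b l‖ ‖s‖² ≤ 8 exp(2 (1-exp(-δ))^(-4001))`. -/
def NG_stmt : Prop := ∀ δ : ℝ, 0 < δ → ∃ R₁ : ℝ, 4 ≤ R₁ ∧ ∀ (k : ℕ) [NeZero k] (b g : ZMod k → ℂ)
  (i : ZMod k) (ψ : ℂ → ℂ), 2 ≤ k → Function.Injective b → (∀ j, ‖b j‖ ≤ 4) → PN b g i ψ 1 →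
    ∀ u : ℂ, ‖u‖ ≤ Real.exp (-δ) → ‖ψ u‖ < R₁

/-- NI: natural maps at a pole are injective [paper, (2.5)].
PROOF. `ψ u = b i` only for `u = 0`. Let `ψ u₁ = ψ u₂`, `u₁, u₂ ≠ 0`, `w_j = log u_j`. Apply NU to `hat ψ` on `{Re w < log r}`.
`s = 1`: for all real `h ≤ 0` : `ψ (u₁ e^h) = ψ (u₂ e^h)`; as `ψ' 0 ≠ 0`, dividing `ψ(u₁ ε) - ψ 0` by `ε → 0`: `u₁ = u₂`.
`s = -1`: with `h₀ = (w₂-w₁)/2` (the segment stays in the half plane) and the open strip version, near the midpoint `m`: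
`hat ψ (m+h) = hat ψ (m-h)`, so `deriv (hat ψ) m = 0`, contradiction to `IsNat.eq` (use the derivative conclusion of NU:
`deriv (w₁+h₀) = - deriv (w₂ - h₀)`, the same point `m`). -/
def NI_stmt : Prop := ∀ (k : ℕ) [NeZero k] (b g : ZMod k → ℂ) (i : ZMod k) (ψ : ℂ → ℂ) (r : ℝ),
  PN b g i ψ r → InjOn ψ (ball 0 r)

/-- ND: the maximal cylinders are disjoint [paper, (2.6)].
PROOF. Suppose `ψ u = ψ' v`. `u, v ≠ 0` (values `b i`, `b l` are taken only at `0`, `b` injective). Apply NU to the hats at `log u`, `log v`.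
`s = 1`: `h → -∞` along the reals: `b i = b l`. `s = -1`: for all `h` with `Re (w₁+h) < 0`, `Re(w₂-h) < 0` (open strip, convex):
`hat ψ (w₁+h) = hat ψ' (w₂-h)`. So `E w = hat ψ w` for `Re w < 0`, `= hat ψ' (w₁+w₂-w)` for `Re w > Re(w₁+w₂)` is a well defined
natural, `2πi`-periodic function on all of `ℂ`; hence `ψ` extends to a `PN`-map on `ball 0 r` for every `r`
(define it by `ψ` on the unit disc and by `ψ' (e^{w₁+w₂}/u)` for `‖u‖ > e^{Re(w₁+w₂)}`); contradiction to `MaxPN.mx` with `r = 2`. -/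
def ND_stmt : Prop := ∀ (k : ℕ) [NeZero k] (b g : ZMod k → ℂ) (i l : ZMod k) (ψ ψ' : ℂ → ℂ),
  Function.Injective b → i ≠ l → MaxPN b g i ψ → MaxPN b g l ψ' →
    Disjoint (ψ '' ball 0 1) (ψ' '' ball 0 1)

/-- NFI: flat extensions are injective on the flat disc [paper, (2.7)].
PROOF. Let `χ w₁ = χ w₂`, both in the ball `D`. NU. `s = 1`: shift both to the left by real `h`: the paths stay in `HP 0 ∪ D`
(a horizontal chord of `D` to the left ends in `HP 0`, as the centre is on the imaginary axis) until both are in `HP 0`, where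
`χ = hat ψ`; injectivity of `ψ` (NI): `exp` of both equal, so `w₂ - w₁ ∈ 2πi ℤ` and `|w₂-w₁| < 2r ≤ 2 < 2π`. `s = -1`: midpoint as in NI. -/
def NFI_stmt : Prop := ∀ (k : ℕ) [NeZero k] (b g : ZMod k → ℂ) (i : ZMod k) (ψ χ : ℂ → ℂ) (y r : ℝ),
  PN b g i ψ 1 → 0 < r → r ≤ 1 → IsNat b g χ (HP 0 ∪ ball ((y : ℂ) * I) r) →
    EqOn χ (hat ψ) (HP 0) → InjOn χ (ball ((y : ℂ) * I) r)

/-- NFM: some boundary point has no flat disc [paper, (2.7)].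
PROOF. Otherwise for every `y` a flat extension `χ_y` with radius `r_y > 0`. Finitely many balls `ball (i y_j) (r_j/2)` (`y_j ∈ [0,2π]`)
cover `{i y : 0 ≤ y ≤ 2π}`; the functions agree on the (convex, meeting `HP 0` when non empty) intersections, by NU or the identity theorem; so
`hat ψ` extends, `2πi`-periodically, to `{Re w < e}` for some `e > 0`, i.e. `ψ` extends to a `PN`-map on `ball 0 (exp e)` with the
same derivative: contradiction to `mx`. (Alternatively work with `u = exp w` on the compact unit circle: every point `u₀` of the unit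
circle has a neighbourhood to which `ψ` extends as a natural map.) -/
def NFM_stmt : Prop := ∀ (k : ℕ) [NeZero k] (b g : ZMod k → ℂ) (i : ZMod k) (ψ : ℂ → ℂ),
  MaxPN b g i ψ → ∃ y : ℝ, ∀ r > (0 : ℝ), ¬ Flat b g ψ y r

/-- NPL: path lifting through a natural map [paper, (2.8)].
PROOF. `χ` is a local isometry from `|dw|` to `|B|^{1/2}|dz|`. Let `ℓ(t)` be the length of the part `[0,t]`. Consider the set of
`t ∈ [0,1]` such that there is a continuous `v : [0,t] → ball v₁ r` with `χ (v s) = G (w₁ + s (w₂-w₁))`, `v 0 = v₁` and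
`‖v s - v s'‖ ≤ ℓ(s) - ℓ(s')` for `s' ≤ s`. It is non empty, open (local inverse of `χ` at `v t`, whose derivative is
`1/χ'`, so `|v'| = |G'| |w₂-w₁| |B(G)|^{1/2}`) and closed (Cauchy; the limit stays in the ball because the total length is `< r`). -/
def NPL_stmt : Prop := ∀ (k : ℕ) [NeZero k] (b g : ZMod k → ℂ) (χ G : ℂ → ℂ) (Ω Ω' : Set ℂ)
  (v₁ w₁ w₂ : ℂ) (r : ℝ), IsOpen Ω → IsOpen Ω' → IsNat b g χ Ω → ball v₁ r ⊆ Ω →
  DifferentiableOn ℂ G Ω' → (∀ w ∈ Ω', ∀ j, G w ≠ b j) → segment ℝ w₁ w₂ ⊆ Ω' → G w₁ = χ v₁ →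
  (∫ t in (0 : ℝ)..1, ‖w₂ - w₁‖ * Real.sqrt ‖deriv G (w₁ + t * (w₂ - w₁)) ^ 2 *
    BB b g (G (w₁ + t * (w₂ - w₁)))‖) < r →
  ∃ v₂ : ℂ, ‖v₂ - v₁‖ ≤ (∫ t in (0 : ℝ)..1, ‖w₂ - w₁‖ * Real.sqrt ‖deriv G (w₁ + t * (w₂ - w₁)) ^ 2 *
    BB b g (G (w₁ + t * (w₂ - w₁)))‖) ∧ χ v₂ = G w₂

/-- NHP: the left neighbour across a flat disc [paper, (2.9)].
PROOF. Let `v ∈ ball (i y) (5ρ)`, `χ v = ψ' u`, `u ≠ 0` (`IsNat.av`), `v' = log u`. NU for `χ` and `hat ψ'`. `s = 1`: `χ (v+h) = hat ψ' (v'+h)` for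
real `h ≤ 0` (stays in the domains); for `h → -∞`: `χ (v+h) = ψ (exp (v+h)) → b i`, right side `→ b l`: contradiction.
`s = -1`: path from `v` horizontally to the right to real part `6ρ`, then vertically to `i y + 6ρ` : it stays in
`ball (i y) (16ρ)`, and `v' - h` stays in `HP 0` as `Re h ≥ 0`. So `χ (i y + 6ρ) = hat ψ' (v' - h)`. -/
def NHP_stmt : Prop := ∀ (k : ℕ) [NeZero k] (b g : ZMod k → ℂ) (i l : ZMod k) (ψ ψ' χ : ℂ → ℂ)
  (y ρ : ℝ) (v : ℂ), Function.Injective b → i ≠ l → PN b g i ψ 1 → PN b g l ψ' 1 → 0 < ρ →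
  IsNat b g χ (HP 0 ∪ ball ((y : ℂ) * I) (16 * ρ)) → EqOn χ (hat ψ) (HP 0) →
  v ∈ ball ((y : ℂ) * I) (5 * ρ) → χ v ∈ ψ' '' ball 0 1 →
    χ ((y : ℂ) * I + 6 * ρ) ∈ ψ' '' ball 0 1

/-- NGF: bound of a flat extension.
PROOF. Let `l = i+1`, `D = b i - b l`, `‖D‖ ≤ 8`. `F = (χ - b l)/D` on `HP 0 ∪ ball` omits `0` and `1` (`χ` omits all `b j`).
At `w₀ = i y - ρ₀/16`, `u₀ = exp w₀`, `‖u₀‖ = exp(-ρ₀/16)`: `F w₀ = s(u₀)²` with the square root `s` of NLB/NG, so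
`|log‖F w₀‖| ≤ 2 (1-exp(-ρ₀/16))^(-4001) =: M` (the bound of `|log‖s‖|` in the proof of NG is two-sided; prove that first
as a lemma). Every `w` of `ball (iy) (ρ₀/16)` and every point of the segment from `w₀` (length `< ρ₀/8`) is the
centre of a ball of radius `ρ₀/2` inside the flat disc `ball (i y) ρ₀`; Landau (`Pool.Agent.helper54.CR.landau`) there:
`‖F'/F‖ ≤ (8000/ρ₀)(1+|log‖F‖|)`. So `1+|log‖F‖|` grows along the segment at most by the factor `exp((8000/ρ₀)(ρ₀/8)) = e^{1000}`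
(Gronwall), and `‖χ w‖ ≤ 4 + 8 exp(e^{1000}(1+M))`. -/
def NGF_stmt : Prop := ∀ ρ₀ : ℝ, 0 < ρ₀ → ρ₀ ≤ 1 → ∃ R₂ : ℝ, 4 ≤ R₂ ∧ ∀ (k : ℕ) [NeZero k]
  (b g : ZMod k → ℂ) (i : ZMod k) (ψ χ : ℂ → ℂ) (y : ℝ), 2 ≤ k → Function.Injective b →
  (∀ j, ‖b j‖ ≤ 4) → PN b g i ψ 1 → IsNat b g χ (HP 0 ∪ ball ((y : ℂ) * I) ρ₀) →
  EqOn χ (hat ψ) (HP 0) → ∀ w ∈ ball ((y : ℂ) * I) (ρ₀ / 16), ‖χ w‖ < R₂

/-! ## Part T -/

/-- TP: the numerator polynomial. -/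
def TP_stmt : Prop := ∀ (k : ℕ) [NeZero k] (b g : ZMod k → ℂ), Function.Injective b →
  (∀ z : ℂ, (∀ i, z ≠ b i) → BB b g z * ∏ i, (z - b i) ^ 2 = (Ppoly b g).eval z) ∧
  (∀ i, (Ppoly b g).eval (b i) ≠ 0) ∧
  (∑ i, g i ≠ 0 → (Ppoly b g).natDegree = 2 * k - 1 ∧ (Ppoly b g).leadingCoeff = ∑ i, g i)

/-- TB: the transfer identity [paper, (1.1)].
PROOF. For `a ≠ 0`, `a^n = W` and `y^n = w`: `∑_j 1/((ω^j y - a) n² (ω^j y)^{2n-2}) = (1/(n a^{n-1})) (1/(y^n - a^n) - 1/y^n)` (here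
`w - f(b) = y^n - a^n`, `w - c = y^n`, `a = b`): proof by `∑_j (ω^j y)^{m}·1/(ω^j y - a)`: `1/(Y-a) = (∑_{l<n} Y^l a^{n-1-l})/(Y^n-a^n)` for
`Y^n ≠ a^n`, so the sum is `(1/(n²(w-W))) ∑_l a^{n-1-l} ∑_j (ω^j y)^{l-2n+2}` and `∑_j (ω^j y)^m = n y^m` if `n ∣ m`, `0` otherwise: only
`l = n-2`, `m = -n`: `= (1/(n² (w-W))) a · n · w^{-1} = a/(n w (w-W)) = (a/(n W)) (1/(w-W) - 1/w)`, `a/W = a^{1-n}`. Similarly for
`1/(Y-a)^2` (differentiate in `a`, or the formula `1/(Y-a)^2 = (∑_l Y^l a^{n-1-l})²/(Y^n-a^n)²`; the derivative version: both sides are rational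
functions of `a`; alternatively use HasDerivAt of both sides in `a`). Sum over the cycle, `f(b i) = b (i+1)`. -/
def TB_stmt : Prop := ∀ (n k : ℕ) [NeZero k] (c : ℂ) (b g : ZMod k → ℂ), 2 ≤ n → IsCyc n c b →
  ∀ y : ℂ, y ≠ 0 → (∀ i, y ^ n + c ≠ b i) →
    ∑ j ∈ Finset.range n, BB b g (om n ^ j * y) / fd n (om n ^ j * y) ^ 2 =
      BB b g (y ^ n + c) - er n c b g (y ^ n + c)

/-- TG: the exact solution, its uniqueness, and small perturbations.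
PROOF. (a) the affine map `g_0 ↦ g_k` of the recurrence is `g ↦ g/ρ + const`, which has a unique fixed point as `ρ ≠ 1`.
(b) for the exact `g`, `er z = S/(z-c)`, `S = ∑ g i`, and `∫_{ball 0 R} 1/‖z-c‖ ≤ ∫_{ball c (2R)} = 4πR`. For the perturbation
`g' = g + ν` (constant `ν`): `er' z = er z + ν (∑_i (1 - 1/f'(b i))/(z-b (i+1)) + (∑ 1/f'(b i))/(z-c))`, whose integral is `O(ν)`; `∑ g' = S + kν ≠ 0`
for all small `ν ≠ 0` with at most one exception. (local integrability of `1/‖z-a‖` in the plane) -/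
def TG_stmt : Prop := ∀ (n k : ℕ) [NeZero k] (c : ℂ) (b : ZMod k → ℂ), 2 ≤ n → IsCyc n c b →
  rho n b ≠ 1 → ∃! g : ZMod k → ℂ, (∀ i, g (i + 1) = g i / fd n (b i) - fdd n (b i) / fd n (b i) ^ 2)

/-- TGP: perturbation of the exact solution (see TG). -/
def TGP_stmt : Prop := ∀ (n k : ℕ) [NeZero k] (c : ℂ) (b g : ZMod k → ℂ) (R : ℝ), 2 ≤ n →
  IsCyc n c b → ‖c‖ ≤ 3 → 4 ≤ R →
  (∀ i, g (i + 1) = g i / fd n (b i) - fdd n (b i) / fd n (b i) ^ 2) → ∀ η > (0 : ℝ),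
    ∃ g' : ZMod k → ℂ, (∑ i, g' i ≠ 0) ∧
      ∫ z in ball (0 : ℂ) R, ‖er n c b g' z‖ ≤ 4 * Real.pi * R * ‖∑ i, g i‖ + η

/-- TR: shift of the base point of the cycle (all by reindexing sums). -/
def TR_stmt : Prop := ∀ (n k : ℕ) [NeZero k] (c : ℂ) (b g : ZMod k → ℂ) (ψ : ZMod k → ℂ → ℂ)
  (R ε : ℝ) (i : ZMod k), SU n k c b g ψ R ε →
    SU n k c (fun j => b (i + j)) (fun j => g (i + j)) (fun j => ψ (i + j)) R ε ∧
    rho n (fun j => b (i + j)) = rho n b ∧ (∀ z, BB (fun j => b (i + j)) (fun j => g (i + j)) z = BB b g z) ∧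
    (∀ χ y r, Flat (fun j => b (i + j)) (fun j => g (i + j)) χ y r ↔ Flat b g χ y r)

/-- TBD: cycles and preimages of discs stay in the disc of radius `4`.
PROOF. If `‖z‖ ≥ 4` then `‖z^n + c‖ ≥ ‖z‖^2 - 3 ≥ 4‖z‖ - 3 ≥ ‖z‖ + 9 > ‖z‖`; the maximum of `‖b j‖` over the finite cycle
would otherwise increase. -/
def TBD_stmt : Prop := ∀ (n : ℕ) (c : ℂ), 2 ≤ n → ‖c‖ ≤ 3 →
  (∀ z : ℂ, 4 ≤ ‖z‖ → ‖z‖ + 9 ≤ ‖z ^ n + c‖) ∧
  (∀ (R : ℝ) (y : ℂ), 4 ≤ R → ‖y ^ n + c‖ < R → ‖y‖ < R) ∧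
  (∀ (k : ℕ) [NeZero k] (b : ZMod k → ℂ), IsCyc n c b → ∀ j, ‖b j‖ < 4)

/-! ## Part M -/

/-- MI: measurability and integrability.
PROOF. `BB`, `er`, `rt`, `fd`, `Df` are built from measurable functions; `er` is a finite sum of `const / (z - a)`,
and `1/‖z - a‖` is integrable on bounded sets of the plane (polar coordinates, or layer cake). The last claim is the
exact value in polar coordinates. -/
def MI_stmt : Prop := (∀ (n k : ℕ) [NeZero k] (c : ℂ) (b g : ZMod k → ℂ), Measurable (BB b g) ∧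
    Measurable (er n c b g) ∧ Measurable (Df n c b g) ∧ ∀ (a : ℂ) (R : ℝ), IntegrableOn (er n c b g) (ball a R)) ∧
  (∀ (a : ℂ) (R : ℝ), 0 ≤ R → IntegrableOn (fun z : ℂ => 1 / ‖z - a‖) (ball a R) ∧
    ∫ z in ball a R, 1 / ‖z - a‖ = 2 * Real.pi * R)

/-- MCV: change of variables for `f z = z^n + c`: `∫_K T F = ∫_{f⁻¹K} F`.
PROOF. For `j < n` let `S_j` be the open sector `{y : 0 < arg(ω^{-j} y)...}` on which `y = ω^j rt n (z-c)`: `z ↦ ω^j rt n (z - c)` is injective and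
holomorphic on the slit plane `{z | z - c ∈ slitPlane}` with derivative `1/fd n y`, its images for `j < n` are disjoint and cover `ℂ` up to a null set
(rays). `lintegral_image_eq_lintegral_abs_det_fderiv_mul` for each `j` and sum. -/
def MCV_stmt : Prop := ∀ (n : ℕ) (c : ℂ), 1 ≤ n → ∀ (F : ℂ → ENNReal) (K : Set ℂ), Measurable F →
  MeasurableSet K → ∫⁻ z in K, ∑ j ∈ Finset.range n,
    F (om n ^ j * rt n (z - c)) / ENNReal.ofReal (‖fd n (om n ^ j * rt n (z - c))‖ ^ 2) =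
    ∫⁻ y in {y : ℂ | y ^ n + c ∈ K}, F y

/-- MD: total cancellation [paper, (3.1)]. `Df ≥ 0` almost everywhere and its integral is at most
`2π log‖ρ‖ + ∫‖e‖`.
PROOF. `Df ≥ 0` where `z - c ≠ 0`, `z ≠ b i` (TB and the triangle inequality). Let `K_r = ball 0 R \ ⋃ ball (b i) r`. By MCV
`∫_{K_r} T|B| = ∫_{f⁻¹ K_r} |B|`, `f⁻¹ (ball 0 R) ⊆ ball 0 R` (`R ≥ 4`, `‖c‖ ≤ 3`), and `f⁻¹ K_r` is disjoint from
`ball (b i) (r (1 - C r)/‖f'(b i)‖)` since `f` maps it into `ball (b (i+1)) r`. As `| |B| - ‖z-b i‖^{-2} | ≤ C/‖z-b i‖` near `b i`, the integral of `|B|`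
over `s < ‖z-b i‖ < t` is `2π log(t/s) + O(t+s)`. So `∫_{K_r} T|B| ≤ ∫_{K_r} |B| + 2π ∑ log ‖f'(b i)‖ + o(1)`; `Df ≤ T|B| - |B| + ‖e‖`;
let `r → 0` (monotone convergence). Here `∫_{K_r}|B| < ∞`. -/
def MD_stmt : Prop := ∀ (n k : ℕ) [NeZero k] (c : ℂ) (b g : ZMod k → ℂ) (R : ℝ), 2 ≤ n →
  IsCyc n c b → ‖c‖ ≤ 3 → 4 ≤ R → 1 < ‖rho n b‖ →
  (∀ z : ℂ, z ≠ c → (∀ i, z ≠ b i) → 0 ≤ Df n c b g z) ∧
  ∫⁻ z in ball (0 : ℂ) R, ENNReal.ofReal (Df n c b g z) ≤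
    ENNReal.ofReal (2 * Real.pi * Real.log ‖rho n b‖ + ∫ z in ball (0 : ℂ) R, ‖er n c b g z‖)

/-- MA: sum of the pulled back densities over a family of injective maps with images of multiplicity
at most `M` in `ball 0 R`.
PROOF. `∫_{Ω q} F(G q w) ‖G q' w‖² = ∫_{G q '' Ω q} F` for `F = Df + 2‖er‖` (ofReal, measurable, `≥ 0` a.e.); sum over `q` and use
`∑_q 1_{G q '' Ω q} ≤ M` on `ball 0 R`; MD. (`er` is integrable on `ball 0 R`: simple poles.) -/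
def MA_stmt : Prop := ∀ (n k : ℕ) [NeZero k] (c : ℂ) (b g : ZMod k → ℂ) (R : ℝ), 2 ≤ n →
  IsCyc n c b → ‖c‖ ≤ 3 → 4 ≤ R → 1 < ‖rho n b‖ → ∀ (Q M : ℕ) (Ω : ℕ → Set ℂ) (G : ℕ → ℂ → ℂ),
  (∀ q < Q, IsOpen (Ω q) ∧ DifferentiableOn ℂ (G q) (Ω q) ∧ InjOn (G q) (Ω q) ∧
    MapsTo (G q) (Ω q) (ball 0 R)) →
  (∀ z : ℂ, ∀ F : Finset ℕ, (∀ q ∈ F, q < Q ∧ z ∈ G q '' Ω q) → F.card ≤ M) →
  (∑ q ∈ Finset.range Q, ∫⁻ w in Ω q, ENNReal.ofReal (dens n c b g (G q) w) ≤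
    M * ENNReal.ofReal (2 * Real.pi * Real.log ‖rho n b‖ + 3 * ∫ z in ball (0 : ℂ) R, ‖er n c b g z‖)) ∧
  (∑ q ∈ Finset.range Q, ∫⁻ w in Ω q, ENNReal.ofReal (‖er n c b g (G q w)‖ * ‖deriv (G q) w‖ ^ 2) ≤
    M * ENNReal.ofReal (∫ z in ball (0 : ℂ) R, ‖er n c b g z‖))

end MPS
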