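import Pool.Agent.helper36.MP.SpecN

/-!
# Project mp: (MP_af9036_an): part L (levels), part H (harmonic estimates), part P (Phase 1)

Paper proof /team-store/MP_af9036_strip_helper36.md, quoted as [paper, (x.y)].
File `Pool/Agent/<seat>/MP/XX.lean`, `import Pool.Agent.helper36.MP.SpecP`, `namespace MPS`,
`theorem XX (h : YY_stmt) ... : XX_stmt`. Any other statement (also of SpecN) may be a hypothesis (no circles).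
-/

set_option autoImplicit false

open Complex Metric Set Filter Topology MeasureTheory

noncomputable section

namespace MPS

/-! ## Part L -/

/-- LR: `n`-th roots on convex open sets. PROOF. `Ω` is convex, `F'/F` has a primitive `P` on `Ω`
(integrate along segments from `w₀`: e.g. `Pool.Agent.helper98.ILF.exists_lift_pow` on balls and gluing, or Mathlib's
branches of logarithms on simply connected open sets, `BranchLogRoot`), `G = v exp ((P - P w₀)/n)`; if `n ≥ 1`. -/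
def LR_stmt : Prop := ∀ (n : ℕ) (Ω : Set ℂ) (F : ℂ → ℂ) (w₀ v : ℂ), 1 ≤ n → IsOpen Ω → Convex ℝ Ω →
  DifferentiableOn ℂ F Ω → (∀ w ∈ Ω, F w ≠ 0) → w₀ ∈ Ω → v ^ n = F w₀ →
  ∃ G : ℂ → ℂ, DifferentiableOn ℂ G Ω ∧ G w₀ = v ∧ ∀ w ∈ Ω, G w ^ n = F w

/-- LRU: uniqueness of continuous `n`-th roots. PROOF. `(G₁/G₂)^n = 1`, a continuous function with values in
a finite set on a preconnected set is constant. -/
def LRU_stmt : Prop := ∀ (n : ℕ) (Ω : Set ℂ) (G₁ G₂ : ℂ → ℂ) (w₀ : ℂ), 1 ≤ n → IsPreconnected Ω →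
  ContinuousOn G₁ Ω → ContinuousOn G₂ Ω → (∀ w ∈ Ω, G₁ w ^ n = G₂ w ^ n) → (∀ w ∈ Ω, G₂ w ≠ 0) →
  w₀ ∈ Ω → G₁ w₀ = G₂ w₀ → EqOn G₁ G₂ Ω

/-- LEA: avoidance of the cycle, holomorphy of the level functions [paper, (4.1)].
PROOF. `G 0` avoids `b m` (nat0). If `ω^j G (q+1) w = b m` then `G q w = (ω^j G (q+1) w)^n + c = b (m+1)`; induction.
`G q w ≠ c` as `G (q+1) w ≠ 0`. `BB b g` is holomorphic off the `b m`, `er` off the `b m` and `c`; derivatives of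
holomorphic functions on open sets are holomorphic. -/
def LEA_stmt : Prop := ∀ (n k : ℕ) [NeZero k] (c : ℂ) (b g : ZMod k → ℂ) (G : ℕ → ℂ → ℂ) (Ω : Set ℂ)
  (Q : ℕ), 2 ≤ n → IsCyc n c b → IsOpen Ω → LevSys n c b g G Ω Q →
  (∀ q ≤ Q, ∀ w ∈ Ω, ∀ m, G q w ≠ b m) ∧
  (∀ q < Q, ∀ w ∈ Ω, ∀ (j : ℕ) (m : ZMod k), om n ^ j * G (q + 1) w ≠ b m) ∧
  (∀ q < Q, ∀ w ∈ Ω, G q w ≠ c) ∧
  (∀ q ≤ Q, DifferentiableOn ℂ (tau b g G q) Ω) ∧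
  (∀ q < Q, ∀ j : ℕ, DifferentiableOn ℂ (bet n b g G (q + 1) j) Ω) ∧
  (∀ q < Q, DifferentiableOn ℂ (eef n c b g G q) Ω)

/-- LEI: the identities between the level functions [paper, (4.1), (4.2)].
PROOF. `deriv (G q) w = fd n (G (q+1) w) * deriv (G (q+1)) w`, `fd n (ω^j y) = ω^{j(n-1)} fd n y`, `ω^n = 1`, so
`fd n y² / fd n (ω^j y)² = (ω^j)²`; TB with `y = G (q+1) w`. The preimages `ω^j rt n (G q w - c)` and `ω^j G (q+1) w`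
(`j < n`) are the same finite set, so `Df` can be computed with `y = G (q+1) w` (or: both enumerations differ by a shift of `j` mod `n`). -/
def LEI_stmt : Prop := ∀ (n k : ℕ) [NeZero k] (c : ℂ) (b g : ZMod k → ℂ) (G : ℕ → ℂ → ℂ) (Ω : Set ℂ)
  (Q : ℕ), 2 ≤ n → IsCyc n c b → IsOpen Ω → LevSys n c b g G Ω Q →
  (∀ q w, bet n b g G q 0 w = tau b g G q w) ∧
  (∀ w ∈ Ω, tau b g G 0 w = 1) ∧
  (∀ q < Q, ∀ w ∈ Ω, tau b g G q w = tau b g G (q + 1) w +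
    ∑ j ∈ Finset.Ico 1 n, bet n b g G (q + 1) j w + eef n c b g G q w) ∧
  (∀ q < Q, ∀ w ∈ Ω, ∀ j : ℕ, brv n b g (G q) w (om n ^ j * G (q + 1) w) = bet n b g G (q + 1) j w) ∧
  (∀ q < Q, ∀ w ∈ Ω, Df n c b g (G q w) * ‖deriv (G q) w‖ ^ 2 =
    ‖tau b g G (q + 1) w‖ + ∑ j ∈ Finset.Ico 1 n, ‖bet n b g G (q + 1) j w‖ -
      ‖tau b g G q w - eef n c b g G q w‖) ∧
  (∀ q ≤ Q, ∀ w ∈ Ω, G q w ≠ c →
    tau b g G q w = ∑ j ∈ Finset.range n, brv n b g (G q) w (om n ^ j * rt n (G q w - c)) +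
      eef n c b g G q w ∧
    Df n c b g (G q w) * ‖deriv (G q) w‖ ^ 2 =
      ∑ j ∈ Finset.range n, ‖brv n b g (G q) w (om n ^ j * rt n (G q w - c))‖ -
        ‖tau b g G q w - eef n c b g G q w‖)

/-- LV: the deficit inequalities [paper, (4.2)].
PROOF. First: `∑_{q<Q'} Df(G q w)‖G q'‖² = ∑ (‖tau (q+1)‖ + ∑‖bet‖ - ‖tau q - eef q‖) ≥ ‖tau Q'‖ - 1 + ∑∑‖bet‖ - ∑‖eef‖`
(telescoping, `tau 0 = 1`), and `1 = re (tau Q' + ∑∑ bet + ∑ eef)`, `-re eef ≤ ‖eef‖`, `‖eef q‖ = ‖er (G q w)‖‖G q'‖²`.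
Second: the same with the last step replaced by the branches. Third: `0 ≤ Df` (MD, or the last formula of LEI and the
triangle inequality). Fourth: `tau q - 1 = - ∑_{p=1}^q (∑_j bet p j + eef (p-1))`. -/
def LV_stmt : Prop := ∀ (n k : ℕ) [NeZero k] (c : ℂ) (b g : ZMod k → ℂ) (G : ℕ → ℂ → ℂ) (Ω : Set ℂ)
  (Q : ℕ), 2 ≤ n → IsCyc n c b → IsOpen Ω → LevSys n c b g G Ω Q →
  (∀ Q' ≤ Q, ∀ w ∈ Ω, (‖tau b g G Q' w‖ - (tau b g G Q' w).re) +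
    ∑ q ∈ Finset.range Q', ∑ j ∈ Finset.Ico 1 n,
      (‖bet n b g G (q + 1) j w‖ - (bet n b g G (q + 1) j w).re) ≤
    ∑ q ∈ Finset.range Q', dens n c b g (G q) w) ∧
  (∀ Q' ≤ Q, ∀ w ∈ Ω, G Q' w ≠ c → ∑ j ∈ Finset.range n,
      (‖brv n b g (G Q') w (om n ^ j * rt n (G Q' w - c))‖ -
        (brv n b g (G Q') w (om n ^ j * rt n (G Q' w - c))).re) ≤
    ∑ q ∈ Finset.range (Q' + 1), dens n c b g (G q) w) ∧
  (∀ q ≤ Q, ∀ w ∈ Ω, G q w ≠ c → 0 ≤ dens n c b g (G q) w) ∧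
  (∀ q ≤ Q, ∀ w ∈ Ω, ‖tau b g G q w - 1‖ ≤ ∑ p ∈ Finset.Icc 1 q, lev n c b g G p w)

/-! ## Part H -/

/-- HSM: area sub-mean value property for sums of moduli.
PROOF. With unimodular `c i`, `∑ ‖h i a‖ = ‖∑ c i h i a‖`; area mean value of the holomorphic function `∑ c i h i`
on `ball a r'`, `r' → r` (circle means `circleIntegral`/`circleAverage` and polar coordinates). -/
def HSM_stmt : Prop := ∀ (ι : Type) (s : Finset ι) (h : ι → ℂ → ℂ) (a : ℂ) (r : ℝ), 0 < r →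
  (∀ i ∈ s, DifferentiableOn ℂ (h i) (ball a r)) →
  ENNReal.ofReal (Real.pi * r ^ 2 * ∑ i ∈ s, ‖h i a‖) ≤
    ∫⁻ z in ball a r, ENNReal.ofReal (∑ i ∈ s, ‖h i z‖)

/-- HAR: Harnack type lemma [paper, (4.4)].
PROOF. On `ball a r'`, `r' < r`: `∫ ∑‖h i‖ = ∫ ∑ (‖h i‖ - re h i) + π r'² ∑ re (h i a)`; let `r' → r` (monotone convergence).
For the second claim HSM on `ball z (r/2) ⊆ ball a r`: `π (r/2)² ∑‖h i z‖ ≤ ν + π r² ∑ ‖h i a‖`. -/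
def HAR_stmt : Prop := ∀ (ι : Type) (s : Finset ι) (h : ι → ℂ → ℂ) (a : ℂ) (r ν : ℝ), 0 < r →
  0 ≤ ν → (∀ i ∈ s, DifferentiableOn ℂ (h i) (ball a r)) →
  ∫⁻ z in ball a r, ENNReal.ofReal (∑ i ∈ s, (‖h i z‖ - (h i z).re)) ≤ ENNReal.ofReal ν →
  (∫⁻ z in ball a r, ENNReal.ofReal (∑ i ∈ s, ‖h i z‖) ≤
    ENNReal.ofReal (ν + Real.pi * r ^ 2 * ∑ i ∈ s, ‖h i a‖)) ∧
  ∀ z ∈ closedBall a (r / 2), ∑ i ∈ s, ‖h i z‖ ≤ 4 * (∑ i ∈ s, ‖h i a‖ + ν / (Real.pi * r ^ 2))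

/-- HCH: chain of HAR along a segment. PROOF. Points `a_l = a + (l/m)(z - a)`, `l = 0..m` (`m = 0`: `z = a`), steps of length
`≤ r/2`; `S_{l+1} ≤ 4 (S_l + x)`, `x = ν/(π r²)`, so `S_m ≤ 4^m S_0 + x (4 + ... + 4^m) ≤ 4^m (S_0 + 2x)`. -/
def HCH_stmt : Prop := ∀ (ι : Type) (s : Finset ι) (h : ι → ℂ → ℂ) (Ω : Set ℂ) (a z : ℂ) (r ν : ℝ)
  (m : ℕ), 0 < r → 0 ≤ ν → IsOpen Ω → (∀ i ∈ s, DifferentiableOn ℂ (h i) Ω) →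
  (∀ p ∈ segment ℝ a z, ball p r ⊆ Ω) →
  (∀ p ∈ segment ℝ a z, ∫⁻ w in ball p r, ENNReal.ofReal (∑ i ∈ s, (‖h i w‖ - (h i w).re)) ≤
    ENNReal.ofReal ν) → ‖z - a‖ ≤ m * (r / 2) →
  ∑ i ∈ s, ‖h i z‖ ≤ 4 ^ m * (∑ i ∈ s, ‖h i a‖ + 2 * ν / (Real.pi * r ^ 2))

/-- HMX: maximum principle (Schwarz lemma) for sums of moduli. PROOF. As in HSM reduce to one function; Schwarz lemma. -/
def HMX_stmt : Prop := ∀ (ι : Type) (s : Finset ι) (h : ι → ℂ → ℂ) (r r' M : ℝ), 0 < r' → r' < r →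
  (∀ i ∈ s, DifferentiableOn ℂ (h i) (ball 0 r) ∧ h i 0 = 0) →
  (∀ u : ℂ, ‖u‖ = r' → ∑ i ∈ s, ‖h i u‖ ≤ M) → ∀ u : ℂ, ‖u‖ ≤ r' → ∑ i ∈ s, ‖h i u‖ ≤ M * ‖u‖ / r'

/-- CHEB: Chebyshev bound for the functional `PsiM` [paper, (5.6)].
PROOF. Cauchy–Schwarz with `t⁻¹ = t^(-1/4) t^(-3/4)`: `PsiM² ≤ (4/π) (∫_0^T t^(-1/2) dt) ∫_0^T t^(-3/2) μ(Ioo (s+t/2) (s+3t/2)) dt =
(8√T/π) ∫ t^(-3/2) μ(..) dt`. By Fubini `∫ μ(Ioo (s+t/2) (s+3t/2)) ds = t μ univ ≤ t E` (`x` is in the interval iff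
`s ∈ Ioo (x-3t/2) (x-t/2)`). So `∫ PsiM² ds ≤ (8√T/π) E 2√T = 16 T E/π`; Markov's inequality. (`μ` is finite; measurability
of `(s,t) ↦ μ (Ioo ..)`: it is `∫⁻ x, indicator`.) -/
def CHEB_stmt : Prop := ∀ (μ : Measure ℝ) (T E κ : ℝ), 0 < T → 0 ≤ E → 0 < κ →
  μ univ ≤ ENNReal.ofReal E →
  volume {s : ℝ | ENNReal.ofReal κ ≤ PsiM μ T s} ≤ ENNReal.ofReal (16 * T * E / (Real.pi * κ ^ 2))

/-- EVT: comparison of the branches over a point near a critical value [paper, (5.7)].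
PROOF. `G w - c = (w - w_c) h w` with `h ≠ 0` holomorphic on the ball (`G` injective, so `G' w_c ≠ 0`), `h = h₁^n` (`exists_lift_pow`).
`Y ξ = exp ξ * h₁ (w_c + exp (n ξ))` on the half plane `n Re ξ < log d`; `Y^n + c = G (w_c + exp (n ξ))`, so `Y ξ ≠ b m`
(else `G w = b (m+1)`), and `B(ξ) = (Y' ξ/(n exp (n ξ)))² BB (Y ξ) = brv n b g G w (Y ξ)` is holomorphic (`w = w_c + exp (n ξ)`; chain rule
`fd n (Y ξ) Y' ξ = G' w * n exp (n ξ)`). `Y (ξ + 2πi/n) = om n * Y ξ`. Choose `ξ₁` with `exp (n ξ₁) = w₁ - w_c` and `Y ξ₁ = y₁`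
(add multiples of `2πi/n`). For `p` on the vertical segment from `ξ₁ + 2πi/n` to `ξ₁` the disc `ball p (log 2/n)` is in the half plane; on it
`|exp (n ξ)| ≥ d/4`, `ξ ↦ w` is injective (width `< 2π/n`) with Jacobian `n²|exp(n ξ)|² ≥ n² d²/16`, so
`∫ (‖B‖ - re B) ≤ 16 ν/(n² d²)`. HCH from `a = ξ₁ + 2πi/n` to `z = ξ₁`, `r = log 2/n`, `m = 19` (`19 log 2/2 ≥ 2π`), `n² r² = log² 2`:
`‖B ξ₁‖ ≤ 4^19 (‖B(ξ₁ + 2πi/n)‖ + 2·16 ν/(π d² log² 2))`, and `32/(π log² 2) ≤ 22 ≤ 4·12`. -/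
def EVT_stmt : Prop := ∀ (n k : ℕ) [NeZero k] (c : ℂ) (b g : ZMod k → ℂ) (G : ℂ → ℂ)
  (wc w₁ y₁ : ℂ) (d ν : ℝ), 2 ≤ n → IsCyc n c b → 0 < d → 0 ≤ ν → DifferentiableOn ℂ G (ball wc d) →
  InjOn G (ball wc d) → (∀ w ∈ ball wc d, ∀ j, G w ≠ b j) → G wc = c → ‖w₁ - wc‖ = d / 2 →
  y₁ ^ n + c = G w₁ →
  ∫⁻ w in ball wc d, ENNReal.ofReal (∑ j ∈ Finset.range n,
      (‖brv n b g G w (om n ^ j * rt n (G w - c))‖ -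
        (brv n b g G w (om n ^ j * rt n (G w - c))).re)) ≤ ENNReal.ofReal ν →
  ‖brv n b g G w₁ y₁‖ ≤ 4 ^ 20 * (‖brv n b g G w₁ (om n * y₁)‖ + 12 * ν / d ^ 2)

/-! ## Part P: Phase 1 -/

/-- the standing assumptions of Phase 1 for a system with `Q` levels. -/
structure H1 (n k : ℕ) [NeZero k] (c : ℂ) (b g : ZMod k → ℂ) (ψ : ZMod k → ℂ → ℂ) (R ε δ : ℝ)
    (A : ℕ → ℝ) (G : ℕ → ℂ → ℂ) (Q : ℕ) : Prop where
  su : SU n k c b g ψ R ε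
  d0 : 0 < δ
  d1 : δ ≤ 1 / 20
  mp : MapsTo (ψ 0) (ball 0 (Real.exp (-δ))) (ball 0 R)
  sys : Sys1 n c b (ψ 0) δ A G Q
  hQ : Q ≤ k

/-- the measure `μ` of layers dominates the level functions. -/
def Mu1 {k : ℕ} [NeZero k] (n : ℕ) (c : ℂ) (b g : ZMod k → ℂ) (A : ℕ → ℝ) (G : ℕ → ℂ → ℂ) (Q : ℕ)
    (μ : Measure ℝ) : Prop :=
  ∀ p, 1 ≤ p → p ≤ Q → ∀ (s t : ℝ) (w : ℂ), A p ≤ s → 0 < t → t ≤ 1 → w.re = -(s + t) →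
    ENNReal.ofReal (∑ q ∈ Finset.Icc 1 p, lev n c b g (GW G) q w) ≤
      ENNReal.ofReal (4 / (Real.pi * t ^ 2)) * μ (Ioo (s + t / 2) (s + 3 * t / 2))

/-- P1A: structure of a Phase 1 system [paper, section 4 and (5.1)].
PROOF. For `u ∈ ball 0 (exp (-A q))` all relations `G (j+1) u ^ n + c = G j u`, `j < q`, hold (`mono`), so the `q`-th iterate of
`z ^ n + c` maps `G q u` to `ψ 0 u`. Injectivity by NI; `MapsTo` by TBD (`A q ≥ 2δ ≥ δ`). LevSys: NH (a) gives nat0.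
Disjointness: `G q u = G q' u'` gives, applying the `q`-th iterate, `ψ 0 u = G (q'-q) u'`; `1 ≤ q'-q < Q` and
`u' ∈ ball 0 (exp (-A (q'+1))) ⊆ ball 0 (exp (-A (q'-q+1)))`, `u ∈ ball 0 (exp (-δ))`: contradiction to `disj`. Last claim: the same; for
`q = 0, q' = Q` it is the hypothesis. -/
def P1A_stmt : Prop := ∀ (n k : ℕ) [NeZero k] (c : ℂ) (b g : ZMod k → ℂ) (ψ : ZMod k → ℂ → ℂ)
  (R ε δ : ℝ) (A : ℕ → ℝ) (G : ℕ → ℂ → ℂ) (Q : ℕ), H1 n k c b g ψ R ε δ A G Q →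
  (∀ q ≤ Q, DifferentiableOn ℂ (G q) (ball 0 (Real.exp (-A q)))) ∧
  (∀ q ≤ Q, InjOn (G q) (ball 0 (Real.exp (-A q)))) ∧
  (∀ q ≤ Q, MapsTo (G q) (ball 0 (Real.exp (-A q))) (ball 0 R)) ∧
  (∀ q ≤ Q, LevSys n c b g (GW G) (HP (A q)) q) ∧
  (∀ q q', q < q' → q' < Q → Disjoint (G q '' ball 0 (Real.exp (-A (q + 1))))
    (G q' '' ball 0 (Real.exp (-A (q' + 1))))) ∧
  (∀ a, A Q ≤ a → (1 ≤ Q → Disjoint (G Q '' ball 0 (Real.exp (-a))) (ψ 0 '' ball 0 (Real.exp (-δ)))) →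
    ∀ q q', q < q' → q' ≤ Q → Disjoint (G q '' ball 0 (Real.exp (-a)))
      (G q' '' ball 0 (Real.exp (-a))))

/-- P1U: the level functions as functions of `u` near `0` [paper, (4.1)].
PROOF. On `ball 0 (exp (-A q)) \ {0}` the functions `(ω^j)² (u G_q'(u))² BB (ω^j G_q u)` etc. are holomorphic (LEA). At `u = 0`:
`G_q 0 = b (-q)`, `G_q' 0 ≠ 0` (chain rule for `f^q ∘ G_q = ψ 0`). For `1 ≤ j < n`, `ω^j b (-q)` is not a `b m` (else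
`b (m+1) = b (-q+1)`, `m = -q`, `ω^j = 1`), so `BB` is holomorphic there: value `0`. `er` has at most simple poles at the `b m`, and
`b (-(q-1)) ≠ c` (`b (-q)^n ≠ 0`): `(u G')² er(G)` is `O(u)`: removable singularity, value `0`. `BB` has the double pole
`1/(z-b)²` plus a simple pole: `(u G')² BB(G) → 1`. -/
def P1U_stmt : Prop := ∀ (n k : ℕ) [NeZero k] (c : ℂ) (b g : ZMod k → ℂ) (ψ : ZMod k → ℂ → ℂ)
  (R ε δ : ℝ) (A : ℕ → ℝ) (G : ℕ → ℂ → ℂ) (Q : ℕ), H1 n k c b g ψ R ε δ A G Q →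
  (∀ q, 1 ≤ q → q ≤ Q → ∀ j ∈ Finset.Ico 1 n, ∃ H : ℂ → ℂ,
    DifferentiableOn ℂ H (ball 0 (Real.exp (-A q))) ∧ H 0 = 0 ∧
      ∀ w ∈ HP (A q), bet n b g (GW G) q j w = H (Complex.exp w)) ∧
  (∀ q, 1 ≤ q → q ≤ Q → ∃ H : ℂ → ℂ, DifferentiableOn ℂ H (ball 0 (Real.exp (-A q))) ∧ H 0 = 0 ∧
      ∀ w ∈ HP (A q), eef n c b g (GW G) (q - 1) w = H (Complex.exp w)) ∧
  (∀ q ≤ Q, ∃ H : ℂ → ℂ, DifferentiableOn ℂ H (ball 0 (Real.exp (-A q))) ∧ H 0 = 1 ∧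
      ∀ w ∈ HP (A q), tau b g (GW G) q w = H (Complex.exp w)) ∧
  (∀ q ≤ Q, deriv (G q) 0 ≠ 0) ∧ (Q = k → deriv (G Q) 0 = deriv (ψ 0) 0 / rho n b)

/-- P1L: the `L¹` bound [paper, (5.2)].
PROOF. Fix `a` and the circle `w = -a + i y`, `0 < y < 2π`; let `Q'` be the number of `q ∈ Icc 1 Q` with `A q < a` (an initial
segment). `∫ re bet q j dy = 2π re H(0) = 0` (P1U, circle mean), so by LV (first inequality at `Q'`)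
`∑_{q ≤ Q'} ∑_j ∫ ‖bet q j‖ dy ≤ ∑_{q<Q'} ∫ dens (G q) dy` (all integrands are continuous in `y` except `dens`, use lower integrals for it: it is `≥ 0`
where `G q w ≠ c`, which holds on `HP (A (q+1))`). Integrate in `a` (Tonelli): `∑_q ∫_{HP (A q), strip} ∑_j ‖bet q j‖ ≤
∑_{q<Q} ∫_{HP (A (q+1)), strip} dens (GW G q)`. MA with `Ω q` = the part of the strip `0 < Im w < 2π` in `HP (A (q+1))`, the maps `GW G q`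
(injective on the strip by P1A), `M = 1`: the sum is `≤ 2π log‖ρ‖ + 3∫‖er‖`; and `∑ ∫ ‖eef (q-1)‖ ≤ ∫‖er‖`. Total `≤ ε` by `SU.hE`. -/
def P1L_stmt : Prop := ∀ (n k : ℕ) [NeZero k] (c : ℂ) (b g : ZMod k → ℂ) (ψ : ZMod k → ℂ → ℂ)
  (R ε δ : ℝ) (A : ℕ → ℝ) (G : ℕ → ℂ → ℂ) (Q : ℕ), H1 n k c b g ψ R ε δ A G Q →
  ∑ q ∈ Finset.Icc 1 Q, ∫⁻ w in {w : ℂ | w.re < -A q ∧ 0 < w.im ∧ w.im < 2 * Real.pi},
    ENNReal.ofReal (lev n c b g (GW G) q w) ≤ ENNReal.ofReal ε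

/-- MU1: the measure of layers [paper, (5.5)].
PROOF. Let `ν = ∑_q (volume restricted to {Re w < -A q, -2π < Im w < 4π}) with density lev q` and `μ` its image under `w ↦ -Re w`.
By periodicity (`GW G q (w + 2πi) = GW G q w`) and P1L, `μ univ ≤ 3 ε`. For the domination shift `w` so that `0 ≤ Im w ≤ 2π`
(lev is `2πi`-periodic). HSM on `ball w (t/2)`, which lies in `HP (A p)` and in the three periods, for the family of all `bet q j`,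
`eef (q-1)`, `q ≤ p`; `-Re` maps this ball into `Ioo (s+t/2) (s+3t/2)`. -/
def MU1_stmt : Prop := ∀ (n k : ℕ) [NeZero k] (c : ℂ) (b g : ZMod k → ℂ) (ψ : ZMod k → ℂ → ℂ)
  (R ε δ : ℝ) (A : ℕ → ℝ) (G : ℕ → ℂ → ℂ) (Q : ℕ), H1 n k c b g ψ R ε δ A G Q →
  ∃ μ : Measure ℝ, μ univ ≤ ENNReal.ofReal (3 * ε) ∧ Mu1 n c b g A G Q μ

/-- PT1: pointwise bounds [paper, (5.3)].
PROOF. `t = -Re w - A p`. `t ≤ 1`: MU1 with `s = A p` gives `≤ (4/(π t²)) 3ε ≤ 4 ε/t²`. `t ≥ 1`: on `Re w = -A p - 1` the sum is `≤ 4ε`;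
HMX for the functions `H` of P1U with `r' = exp (-A p - 1)`. Third: LV. -/
def PT1_stmt : Prop := ∀ (n k : ℕ) [NeZero k] (c : ℂ) (b g : ZMod k → ℂ) (ψ : ZMod k → ℂ → ℂ)
  (R ε δ : ℝ) (A : ℕ → ℝ) (G : ℕ → ℂ → ℂ) (Q : ℕ), H1 n k c b g ψ R ε δ A G Q →
  ∀ p, 1 ≤ p → p ≤ Q → ∀ (w : ℂ) (t : ℝ), 0 < t → w.re = -(A p + t) →
    (t ≤ 1 → ∑ q ∈ Finset.Icc 1 p, lev n c b g (GW G) q w ≤ 4 * ε / t ^ 2) ∧
    (1 ≤ t → ∑ q ∈ Finset.Icc 1 p, lev n c b g (GW G) q w ≤ 4 * ε * Real.exp (1 - t)) ∧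
    ‖tau b g (GW G) p w - 1‖ ≤ ∑ q ∈ Finset.Icc 1 p, lev n c b g (GW G) q w

/-- PHI: the change of coordinate [paper, (5.4)].
PROOF. `a₁ = A Q + δ/8`. Let `H` be the function of P1U for `tau Q`, `H 0 = 1`; on `ball 0 (exp (-a₁))` PT1 gives
`‖H - 1‖ ≤ 4ε·64/δ² ≤ 1/4`. `σ = √H` (principal root), `‖σ - 1‖ ≤ 0.54 ‖H - 1‖`. `P' u = (σ u - 1)/u` (removable at `0`), `P 0 = 0`. Then
`d/dw (w + P (exp w)) = σ (exp w)`. Bound of `P`: integrate along the horizontal ray from `-∞`: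
`∫ 0.54·‖H-1‖ ≤ 0.54 (∫_{δ/8}^1 4ε/t² dt + ∫_1^∞ 4 ε e^{1-t} dt) = 0.54·4ε·8/δ ≤ 17.3 ε/δ ≤ δ/32`. -/
def PHI_stmt : Prop := ∀ (n k : ℕ) [NeZero k] (c : ℂ) (b g : ZMod k → ℂ) (ψ : ZMod k → ℂ → ℂ)
  (R ε δ : ℝ) (A : ℕ → ℝ) (G : ℕ → ℂ → ℂ) (Q : ℕ), H1 n k c b g ψ R ε δ A G Q → 1 ≤ Q →
  ε ≤ δ ^ 2 / 1024 → ∃ P : ℂ → ℂ, DifferentiableOn ℂ P (ball 0 (Real.exp (-(A Q + δ / 8)))) ∧
    P 0 = 0 ∧ (∀ u ∈ ball (0 : ℂ) (Real.exp (-(A Q + δ / 8))), ‖P u‖ ≤ δ / 32 ∧ ‖u * deriv P u‖ ≤ 1 / 4) ∧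
    ∀ w ∈ HP (A Q + δ / 8), (1 + Complex.exp w * deriv P (Complex.exp w)) ^ 2 = tau b g (GW G) Q w

/-- PNX: the induced natural map at the pole `b (-Q)` [paper, (5.4)].
PROOF. `V u = u exp (κ + P u)` on `ball 0 (exp (-a₁))`, `a₁ = A Q + δ/8`. In the coordinate `w = log u`: `Φ w = w + κ + P (exp w)`,
`‖Φ' - 1‖ ≤ 1/4`, so `Φ` is injective on the half plane `HP a₁`, and for `Re v < Re κ - a₁ - δ/32` the contraction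
`w ↦ v - κ - P (exp w)` of the ball of radius `δ/32` about `v - κ` (in `HP a₁`) has a fixed point: `Φ w = v`. `Φ (w + 2πi) = Φ w + 2πi`; so `V` is
injective with image containing `ball 0 r`, `V' ≠ 0`, and `ψ' = G Q ∘ V⁻¹` on `ball 0 r`. `PN`: `ψ' 0 = b (-Q)`,
`deriv ψ' 0 = deriv (G Q) 0 / exp κ`, avoidance by LEA, equation: `(u ψ'')² BB = tau/(Φ')² = 1` in the `w`-coordinate. -/
def PNX_stmt : Prop := ∀ (n k : ℕ) [NeZero k] (c : ℂ) (b g : ZMod k → ℂ) (ψ : ZMod k → ℂ → ℂ)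
  (R ε δ : ℝ) (A : ℕ → ℝ) (G : ℕ → ℂ → ℂ) (Q : ℕ) (P : ℂ → ℂ) (κ : ℂ),
  H1 n k c b g ψ R ε δ A G Q → 1 ≤ Q →
  DifferentiableOn ℂ P (ball 0 (Real.exp (-(A Q + δ / 8)))) → P 0 = 0 →
  (∀ u ∈ ball (0 : ℂ) (Real.exp (-(A Q + δ / 8))), ‖P u‖ ≤ δ / 32 ∧ ‖u * deriv P u‖ ≤ 1 / 4) →
  (∀ w ∈ HP (A Q + δ / 8), (1 + Complex.exp w * deriv P (Complex.exp w)) ^ 2 = tau b g (GW G) Q w) →
  ∃ ψ' : ℂ → ℂ, PN b g (-(Q : ZMod k)) ψ' (Real.exp (κ.re - (A Q + δ / 8) - δ / 32)) ∧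
    deriv ψ' 0 * Complex.exp κ = deriv (G Q) 0 ∧
    ∀ u ∈ ball (0 : ℂ) (Real.exp (-(A Q + δ / 8))),
      u * Complex.exp (κ + P u) ∈ ball (0 : ℂ) (Real.exp (κ.re - (A Q + δ / 8) - δ / 32)) →
      ψ' (u * Complex.exp (κ + P u)) = G Q u

/-- INC1: inclusion in the cylinder of `b (-Q)` [paper, (5.4)].
PROOF. Take `κ` with `exp κ = deriv (G Q) 0 / deriv (ψ (-Q)) 0` (P1U: `≠ 0`); for `Q = k` it is `1/ρ`, take `κ = -log ρ`. PHI, PNX: `ψ'` has the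
derivative of `ψ (-Q)` at `0`, so its radius is `≤ 1` (MaxPN.mx): `Re κ ≤ A Q + δ/8 + δ/32`; by NH (c) `ψ' = ψ (-Q)` on its disc. For
`w ∈ HP (A Q + δ/4)`: `Re (Φ w) ≤ Re w + Re κ + δ/32 < Re κ - (A Q + δ/8) - δ/32` as `-δ/4 + δ/32 ≤ -δ/8 - δ/32`. `Φ w = w + κ + P (exp w)`.
For the last inclusion also `u = 0`: `G Q 0 = b (-Q) = ψ (-Q) 0`. -/
def INC1_stmt : Prop := ∀ (n k : ℕ) [NeZero k] (c : ℂ) (b g : ZMod k → ℂ) (ψ : ZMod k → ℂ → ℂ)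
  (R ε δ : ℝ) (A : ℕ → ℝ) (G : ℕ → ℂ → ℂ) (Q : ℕ), H1 n k c b g ψ R ε δ A G Q → 1 ≤ Q →
  ε ≤ δ ^ 2 / 1024 → ∃ (Φ : ℂ → ℂ) (κ : ℂ), DifferentiableOn ℂ Φ (HP (A Q + δ / 8)) ∧
    (∀ w ∈ HP (A Q + δ / 8), ‖Φ w - w - κ‖ ≤ δ / 32 ∧ deriv Φ w ^ 2 = tau b g (GW G) Q w ∧
      ‖deriv Φ w - 1‖ ≤ 1 / 4) ∧
    (∀ w ∈ HP (A Q + δ / 4), (Φ w).re < 0 ∧ hat (ψ (-(Q : ZMod k))) (Φ w) = GW G Q w) ∧
    (Q = k → κ = -Complex.log (rho n b)) ∧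
    G Q '' ball 0 (Real.exp (-(A Q + δ / 4))) ⊆ ψ (-(Q : ZMod k)) '' ball 0 1

/-- REACH1 [paper, (5.5)].
PROOF. `w₁` with `Re w₁ < -a` and `G p (exp w₁) = ψ 0 u₁`, `‖u₁‖ < exp (-δ)`. `u₁ ≠ 0` (the value `b 0` is avoided by `GW G p`, LEA), `v₁ = log u₁`,
`ball v₁ δ ⊆ HP 0`. NPL for `χ = hat (ψ 0)`, `G = GW G p` on `HP (A p)`, `w₂ = w₁ - δ/4`: if the length is `< δ` then `GW G p w₂ ∈ ψ 0 '' ball 0 1`, but
`GW G p w₂ ∈ ψ (-p) '' ball 0 1` by INC1 (for the system with `p` levels), contradiction to ND (`-p ≠ 0`). So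
`∫_0^{δ/4} ‖tau p (w₁ - t)‖^{1/2} dt ≥ δ`, hence `∫_0^{δ/4} ‖tau p (w₁-t) - 1‖^{1/2} dt ≥ 3δ/4`. Put `t₀ = -Re w₁ - a > 0`. If `t₀ ≥ δ/8` then
(PT1) `‖tau - 1‖ ≤ 256 ε/δ² ≤ 1/4` on the path and the length is `≤ 1.12 δ/4`: contradiction. So `t₀ < δ/8` and with `t' = t + t₀ ≤ 1`,
`‖tau p - 1‖ ≤ (4/(π t'²)) μ(Ioo (a+t'/2) (a+3t'/2))` by `Mu1` with `s = a`. -/
def REACH1_stmt : Prop := ∀ (n k : ℕ) [NeZero k] (c : ℂ) (b g : ZMod k → ℂ) (ψ : ZMod k → ℂ → ℂ)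
  (R ε δ : ℝ) (A : ℕ → ℝ) (G : ℕ → ℂ → ℂ) (Q : ℕ) (μ : Measure ℝ), H1 n k c b g ψ R ε δ A G Q →
  ε ≤ δ ^ 2 / 1024 → Mu1 n c b g A G Q μ → ∀ (p : ℕ) (a : ℝ), 1 ≤ p → p < k → p ≤ Q → A p ≤ a →
  ¬ Disjoint (G p '' ball 0 (Real.exp (-a))) (ψ 0 '' ball 0 (Real.exp (-δ))) →
    ENNReal.ofReal (3 * δ / 4) ≤ PsiM μ 1 a

/-- EV1 [paper, (5.7)].
PROOF. Suppose `d = δ/4 ≤ -log‖u_c‖ - a`; `u_c ≠ 0` (`c ≠ b (-Q)`), `w_c = log u_c`, `D = ball w_c d ⊆ HP a`. Let `a* = -Re w_c`; `c` is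
not a value of `G Q` on `ball 0 (exp (-a*))` (injectivity, P1A). So (LR, with value `b (-(Q+1))` at `0`) the system extends to `Q+1` levels with
`A (Q+1) = a*` (`Sys1`; `disj` at `Q` by hypothesis). PT1 at level `Q+1`, `w₁ = w_c - d/2` (depth `d/2`): `∑ lev ≤ 16 ε/d²`; so
`‖bet (Q+1) 1 w₁‖ ≤ 16ε/d²`, `‖tau (Q+1) w₁‖ ≥ 1 - 16 ε/d²`. On `D` the branch sums are `≤ ∑_{q ≤ Q} dens (GW G q)` (LV on `HP a`, `w ≠ w_c`), whose integral is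
`≤ ε` by MA (`M = 1`, P1A last claim; `GW G q` injective on `D` as `d < 1`). EVT with `y₁ = G_{Q+1}(w₁)`, LEI (brv = bet):
`‖tau (Q+1) w₁‖ ≤ 4^20 (16ε/d² + 12 ε/d²) = 4^20·448 ε/δ² < 1/2`: contradiction. -/
def EV1_stmt : Prop := ∀ (n k : ℕ) [NeZero k] (c : ℂ) (b g : ZMod k → ℂ) (ψ : ZMod k → ℂ → ℂ)
  (R ε δ : ℝ) (A : ℕ → ℝ) (G : ℕ → ℂ → ℂ) (Q : ℕ), H1 n k c b g ψ R ε δ A G Q → Q < k →
  ε ≤ δ ^ 2 / 10 ^ 16 → ∀ (a : ℝ) (uc : ℂ), A Q ≤ a →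
  (1 ≤ Q → Disjoint (G Q '' ball 0 (Real.exp (-a))) (ψ 0 '' ball 0 (Real.exp (-δ)))) →
  uc ∈ ball (0 : ℂ) (Real.exp (-a)) → G Q uc = c → Real.exp (-(a + δ / 4)) < ‖uc‖

/-- failure of the level `q` at the cutoff `a`. -/
def Fail1 (c : ℂ) (ψ : ℂ → ℂ) (δ : ℝ) (G : ℕ → ℂ → ℂ) (q : ℕ) (a : ℝ) : Prop :=
  (1 ≤ q ∧ ¬ Disjoint (G q '' ball 0 (Real.exp (-a))) (ψ '' ball 0 (Real.exp (-δ)))) ∨
    c ∈ G q '' ball 0 (Real.exp (-a))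

/-- STEP1: one more level.
PROOF. `S = {a ≥ A Q | ¬ Fail1 .. Q a}` is an up-set, non empty: `G Q 0 = b (-Q)`, which is `≠ c` and, for `1 ≤ Q < k`, is not in the compact
set `ψ 0 '' closedBall 0 (exp (-δ))` (PN.av, `b (-Q) ≠ b 0`); continuity of `G Q` at `0`. `a' = sInf S`; `¬ Fail1 .. a'` as the ball of radius
`exp (-a')` is the union of the smaller ones. `g'` = the `n`-th root (LR) of `G Q - c` on `ball 0 (exp (-a'))` with value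
`b (-(Q+1))` at `0` (`IsCyc.step`). Its non vanishing: `c` is not attained. -/
def STEP1_stmt : Prop := ∀ (n k : ℕ) [NeZero k] (c : ℂ) (b g : ZMod k → ℂ) (ψ : ZMod k → ℂ → ℂ)
  (R ε δ : ℝ) (A : ℕ → ℝ) (G : ℕ → ℂ → ℂ) (Q : ℕ), H1 n k c b g ψ R ε δ A G Q → Q < k →
  ∃ (a' : ℝ) (g' : ℂ → ℂ), A Q ≤ a' ∧
    H1 n k c b g ψ R ε δ (Function.update A (Q + 1) a') (Function.update G (Q + 1) g') (Q + 1) ∧
    ∀ a, A Q < a → a < a' → Fail1 c (ψ 0) δ G Q a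

/-- SEQ1: all levels. PROOF. Induction with STEP1, starting from `A 0 = 2δ`, `G 0 = ψ 0`, `Q = 0`. -/
def SEQ1_stmt : Prop := ∀ (n k : ℕ) [NeZero k] (c : ℂ) (b g : ZMod k → ℂ) (ψ : ZMod k → ℂ → ℂ)
  (R ε δ : ℝ), SU n k c b g ψ R ε → 0 < δ → δ ≤ 1 / 20 →
  MapsTo (ψ 0) (ball 0 (Real.exp (-δ))) (ball 0 R) →
  ∃ (A : ℕ → ℝ) (G : ℕ → ℂ → ℂ), H1 n k c b g ψ R ε δ A G k ∧ A 0 = 2 * δ ∧
    ∀ q < k, ∀ a, A q < a → a < A (q + 1) → Fail1 c (ψ 0) δ G q a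

/-- PH1: conclusion of Phase 1 [paper, (5.8)].
PROOF. SEQ1 and MU1 (`Q = k`). Almost every `a ∈ (2δ, A k)` lies in some `(A q, A (q+1))`. Either (i) level `q ≥ 1` is not disjoint at `a`:
REACH1: `PsiM μ 1 a ≥ 3δ/4`: these `a` have measure `≤ 16·3ε/(π (3δ/4)²) ≤ 28 ε/δ²` (CHEB). Or (ii) it is disjoint (or `q = 0`) and `c` is attained.
The set of these `a` has diameter `≤ δ/4`: let `a < a'` be in it, with levels `q ≤ q'`. If `q = q'`: the preimage `u_c` of `c` is the same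
(injectivity), EV1 at `a`: `-log‖u_c‖ < a + δ/4`, and `a' < -log‖u_c‖`. If `q < q'`: `c = G q u = G q' u'` contradicts P1A (disjointness; as in its proof apply
the `q`-th iterate, `ψ 0 u = G (q'-q) u'`, and use `disj` at the level `q'-q`, or for `q = 0` disjointness at `a'`). So `A k ≤ 2δ + δ/4 + 28 ε/δ² ≤ 3δ`.
Restrict all levels to `ball 0 (exp (-3δ))`. -/
def PH1_stmt : Prop := ∀ (n k : ℕ) [NeZero k] (c : ℂ) (b g : ZMod k → ℂ) (ψ : ZMod k → ℂ → ℂ)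
  (R ε δ : ℝ), SU n k c b g ψ R ε → 0 < δ → δ ≤ 1 / 20 →
  MapsTo (ψ 0) (ball 0 (Real.exp (-δ))) (ball 0 R) → ε ≤ δ ^ 3 / 10 ^ 16 →
  ∃ G : ℕ → ℂ → ℂ, Sys1 n c b (ψ 0) δ (fun _ => 3 * δ) G k

end MPS
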