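import Mathlib

/-!
# Project mp: (MP_af9036_an): definitions

Universal strip for multipliers of `z ^ n + c`. Paper proof:
/team-store/MP_af9036_strip_helper36.md (quoted as [paper, (x.y)]).
-/

set_option autoImplicit false

open Complex Metric Set Filter Topology MeasureTheory

noncomputable section

namespace MPS

/-- the primitive `n`-th root of unity. -/
def om (n : ℕ) : ℂ := Complex.exp (2 * Real.pi * Complex.I / n)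

/-- the principal `n`-th root. -/
def rt (n : ℕ) (z : ℂ) : ℂ := z ^ ((1 : ℂ) / n)

/-- `f'(z)` for `f(z) = z ^ n + c`. -/
def fd (n : ℕ) (z : ℂ) : ℂ := n * z ^ (n - 1)

/-- `f''(z)`. -/
def fdd (n : ℕ) (z : ℂ) : ℂ := n * (n - 1) * z ^ (n - 2)

/-- the half plane `Re w < -a`. -/
def HP (a : ℝ) : Set ℂ := {w | w.re < -a}

/-- `hat ψ w = ψ (exp w)`. -/
def hat (ψ : ℂ → ℂ) (w : ℂ) : ℂ := ψ (Complex.exp w)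

section
variable {k : ℕ} [NeZero k]

/-- a cycle of exact period `k` of `z ^ n + c`, not containing the critical point. -/
structure IsCyc (n : ℕ) (c : ℂ) (b : ZMod k → ℂ) : Prop where
  inj : Function.Injective b
  step : ∀ i, b i ^ n + c = b (i + 1)
  ne0 : ∀ i, b i ≠ 0

/-- the multiplier. -/
def rho (n : ℕ) (b : ZMod k → ℂ) : ℂ := ∏ i, fd n (b i)

/-- the quadratic differential `B` [paper, section 1]. -/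
def BB (b g : ZMod k → ℂ) (z : ℂ) : ℂ := ∑ i, (1 / (z - b i) ^ 2 + g i / (z - b i))

/-- the error term `e = B - T B` [paper, section 1]. -/
def er (n : ℕ) (c : ℂ) (b g : ZMod k → ℂ) (z : ℂ) : ℂ :=
  (∑ i, (g (i + 1) - g i / fd n (b i) + fdd n (b i) / fd n (b i) ^ 2) / (z - b (i + 1))) +
  (∑ i, (g i / fd n (b i) - fdd n (b i) / fd n (b i) ^ 2)) / (z - c)

/-- the numerator of `B`: `B(z) ∏ (z - b i)^2`. -/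
def Ppoly (b g : ZMod k → ℂ) : Polynomial ℂ :=
  ∑ i, (1 + Polynomial.C (g i) * (Polynomial.X - Polynomial.C (b i))) *
    ∏ j ∈ Finset.univ.erase i, (Polynomial.X - Polynomial.C (b j)) ^ 2

/-- `χ` is a natural map on `Ω` (used only for open `Ω`): `χ'^2 B(χ) = 1`. -/
structure IsNat (b g : ZMod k → ℂ) (χ : ℂ → ℂ) (Ω : Set ℂ) : Prop where
  diff : DifferentiableOn ℂ χ Ω
  av : ∀ w ∈ Ω, ∀ j, χ w ≠ b j
  eq : ∀ w ∈ Ω, deriv χ w ^ 2 * BB b g (χ w) = 1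

/-- natural map at the pole `b i` on the disc of radius `r`. -/
structure PN (b g : ZMod k → ℂ) (i : ZMod k) (ψ : ℂ → ℂ) (r : ℝ) : Prop where
  pos : 0 < r
  diff : DifferentiableOn ℂ ψ (ball 0 r)
  val : ψ 0 = b i
  der : deriv ψ 0 ≠ 0
  av : ∀ u ∈ ball (0 : ℂ) r, u ≠ 0 → ∀ j, ψ u ≠ b j
  eq : ∀ u ∈ ball (0 : ℂ) r, u ≠ 0 → u ^ 2 * deriv ψ u ^ 2 * BB b g (ψ u) = 1

/-- maximal natural map at the pole `b i`, normalised to the unit disc. -/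
structure MaxPN (b g : ZMod k → ℂ) (i : ZMod k) (ψ : ℂ → ℂ) : Prop where
  pn : PN b g i ψ 1
  mx : ∀ r : ℝ, 1 < r → ∀ ψ' : ℂ → ℂ, PN b g i ψ' r → deriv ψ' 0 ≠ deriv ψ 0

/-- the maximal natural map extends to a flat disc of radius `r` at the boundary point `i y`
(in the coordinate `w = log u`). -/
def Flat (b g : ZMod k → ℂ) (ψ : ℂ → ℂ) (y r : ℝ) : Prop :=
  ∃ χ : ℂ → ℂ, IsNat b g χ (HP 0 ∪ ball ((y : ℂ) * I) r) ∧ EqOn χ (hat ψ) (HP 0)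

/-- `τ_q = (G_q')^2 B(G_q)`. -/
def tau (b g : ZMod k → ℂ) (G : ℕ → ℂ → ℂ) (q : ℕ) (w : ℂ) : ℂ :=
  deriv (G q) w ^ 2 * BB b g (G q w)

/-- `β_{q,j} = ω^{2j} (G_q')^2 B(ω^j G_q)`. -/
def bet (n : ℕ) (b g : ZMod k → ℂ) (G : ℕ → ℂ → ℂ) (q j : ℕ) (w : ℂ) : ℂ :=
  (om n ^ j) ^ 2 * deriv (G q) w ^ 2 * BB b g (om n ^ j * G q w)

/-- `e_q = (G_q')^2 e(G_q)`. -/
def eef (n : ℕ) (c : ℂ) (b g : ZMod k → ℂ) (G : ℕ → ℂ → ℂ) (q : ℕ) (w : ℂ) : ℂ :=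
  deriv (G q) w ^ 2 * er n c b g (G q w)

/-- `|β_{q,1}| + ... + |β_{q,n-1}| + |e_{q-1}|` (used for `q ≥ 1`). -/
def lev (n : ℕ) (c : ℂ) (b g : ZMod k → ℂ) (G : ℕ → ℂ → ℂ) (q : ℕ) (w : ℂ) : ℝ :=
  (∑ j ∈ Finset.Ico 1 n, ‖bet n b g G q j w‖) + ‖eef n c b g G (q - 1) w‖

/-- the deficit `T|B| - |TB|` [paper, section 3]. -/
def Df (n : ℕ) (c : ℂ) (b g : ZMod k → ℂ) (z : ℂ) : ℝ :=
  (∑ j ∈ Finset.range n, ‖BB b g (om n ^ j * rt n (z - c))‖ / ‖fd n (om n ^ j * rt n (z - c))‖ ^ 2)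
    - ‖BB b g z - er n c b g z‖

/-- the density of `deficit + 2 |e|`, pulled back by `G`. -/
def dens (n : ℕ) (c : ℂ) (b g : ZMod k → ℂ) (G : ℂ → ℂ) (w : ℂ) : ℝ :=
  (Df n c b g (G w) + 2 * ‖er n c b g (G w)‖) * ‖deriv G w‖ ^ 2

/-- branch value over `w` given by a preimage `y` of `G w` under `z ^ n + c`. -/
def brv (n : ℕ) (b g : ZMod k → ℂ) (G : ℂ → ℂ) (w y : ℂ) : ℂ :=
  (deriv G w / fd n y) ^ 2 * BB b g y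

/-- a system of levels `0..Q` on an open set `Ω` (`w`-plane). -/
structure LevSys (n : ℕ) (c : ℂ) (b g : ZMod k → ℂ) (G : ℕ → ℂ → ℂ) (Ω : Set ℂ) (Q : ℕ) : Prop where
  nat0 : IsNat b g (G 0) Ω
  diff : ∀ q ≤ Q, DifferentiableOn ℂ (G q) Ω
  rel : ∀ q < Q, ∀ w ∈ Ω, G (q + 1) w ^ n + c = G q w ∧ G (q + 1) w ≠ 0

/-- the standing assumptions. -/
structure SU (n k : ℕ) [NeZero k] (c : ℂ) (b g : ZMod k → ℂ) (ψ : ZMod k → ℂ → ℂ) (R ε : ℝ) :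
    Prop where
  hn : 2 ≤ n
  hk : 2 ≤ k
  hc : ‖c‖ ≤ 3
  cyc : IsCyc n c b
  rho1 : 1 < ‖rho n b‖
  mx : ∀ i, MaxPN b g i (ψ i)
  hR : 4 ≤ R
  hE : 2 * Real.pi * Real.log ‖rho n b‖ + 4 * ∫ z in ball (0 : ℂ) R, ‖er n c b g z‖ ≤ ε

/-- Phase 1 system (functions of `u`), cutoff `A q` for level `q`. -/
structure Sys1 (n : ℕ) (c : ℂ) (b : ZMod k → ℂ) (ψ : ℂ → ℂ) (δ : ℝ) (A : ℕ → ℝ)
    (G : ℕ → ℂ → ℂ) (Q : ℕ) : Prop where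
  a0 : 2 * δ ≤ A 0
  mono : ∀ q, q < Q → A q ≤ A (q + 1)
  g0 : G 0 = ψ
  diff : ∀ q, 1 ≤ q → q ≤ Q → DifferentiableOn ℂ (G q) (ball 0 (Real.exp (-A q)))
  rel : ∀ q, q < Q → ∀ u ∈ ball (0 : ℂ) (Real.exp (-A (q + 1))),
    G (q + 1) u ^ n + c = G q u ∧ G (q + 1) u ≠ 0
  val : ∀ q, q ≤ Q → G q 0 = b (-(q : ZMod k))
  disj : ∀ q, 1 ≤ q → q < Q →
    Disjoint (G q '' ball 0 (Real.exp (-A (q + 1)))) (ψ '' ball 0 (Real.exp (-δ)))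

/-- passage to the `w`-plane. -/
def GW (G : ℕ → ℂ → ℂ) (q : ℕ) (w : ℂ) : ℂ := G q (Complex.exp w)

/-- assumptions of Phase 2: `x = i y`, flat disc of radius `16 ρ₁ ≤ 1`, `δ = ρ₁ / 64`, and `G1` the
system of Phase 1 with constant cutoff `3 δ`. -/
structure SU2 (n k : ℕ) [NeZero k] (c : ℂ) (b g : ZMod k → ℂ) (ψ : ZMod k → ℂ → ℂ) (R ε : ℝ)
    (y ρ₁ : ℝ) (χ : ℂ → ℂ) (G1 : ℕ → ℂ → ℂ) (ps : ℕ) : Prop where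
  su : SU n k c b g ψ R ε
  r0 : 0 < ρ₁
  r1 : 16 * ρ₁ ≤ 1
  nat : IsNat b g χ (HP 0 ∪ ball ((y : ℂ) * I) (16 * ρ₁))
  ext : EqOn χ (hat (ψ 0)) (HP 0)
  mp0 : MapsTo (ψ 0) (ball 0 (Real.exp (-(ρ₁ / 64)))) (ball 0 R)
  mp1 : MapsTo χ (ball ((y : ℂ) * I) ρ₁) (ball 0 R)
  s1 : Sys1 n c b (ψ 0) (ρ₁ / 64) (fun _ => 3 * (ρ₁ / 64)) G1 k
  hps : ∀ p : ℕ, 1 ≤ p → p < k → χ ((y : ℂ) * I + 6 * ρ₁) ∈ ψ (-(p : ZMod k)) '' ball 0 1 → p = ps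

/-- Phase 2 system (functions of `w`) on discs of radius `T q` around `x = i y`. -/
structure Sys2 (n : ℕ) (c : ℂ) (y ρ₁ : ℝ) (χ : ℂ → ℂ) (G1 : ℕ → ℂ → ℂ) (ps : ℕ) (T : ℕ → ℝ)
    (G : ℕ → ℂ → ℂ) (Q : ℕ) : Prop where
  t0 : T 0 ≤ ρ₁
  anti : ∀ q, q < Q → T (q + 1) ≤ T q
  low : ∀ q, q ≤ Q → 3 * ρ₁ / 4 < T q
  g0 : G 0 = χ
  diff : ∀ q, q ≤ Q → DifferentiableOn ℂ (G q) (ball ((y : ℂ) * I) (T q))
  rel : ∀ q, q < Q → ∀ w ∈ ball ((y : ℂ) * I) (T (q + 1)), G (q + 1) w ^ n + c = G q w ∧ G (q + 1) w ≠ 0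
  val : ∀ q, q ≤ Q → G q ((y : ℂ) * I - ρ₁ / 4) = G1 q (Complex.exp ((y : ℂ) * I - ρ₁ / 4))
  disj : ∀ q, 1 ≤ q → q < Q → q ≠ ps →
    Disjoint (G q '' ball ((y : ℂ) * I) (T (q + 1))) (χ '' ball ((y : ℂ) * I) ρ₁)

/-- `y` (mod `2π`) is a slit direction of `ψ` for depth `d` [paper, section 7]. -/
def Slit (b g : ZMod k → ℂ) (ψ : ℂ → ℂ) (d y : ℝ) : Prop :=
  ¬ ∃ e > (0 : ℝ), ∃ χ : ℂ → ℂ, IsNat b g χ (HP 0 ∪ {w | |w.im - y| < e ∧ w.re < d + e}) ∧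
    EqOn χ (hat ψ) (HP 0)

/-- the horizontal ray in direction `y` from the pole of `ψ` ends at `ζ`. -/
def Ends (b g : ZMod k → ℂ) (ψ : ℂ → ℂ) (y : ℝ) (ζ : ℂ) : Prop :=
  ∃ T : ℝ, 0 ≤ T ∧ ∃ (χ : ℂ → ℂ) (Ω : Set ℂ), IsOpen Ω ∧ HP 0 ⊆ Ω ∧
    (∀ w ∈ Ω, ∀ s : ℝ, 0 ≤ s → w - s ∈ Ω) ∧ (∀ t : ℝ, t < T → (t : ℂ) + y * I ∈ Ω) ∧
    IsNat b g χ Ω ∧ EqOn χ (hat ψ) (HP 0) ∧
    Tendsto (fun t : ℝ => χ ((t : ℂ) + y * I)) (𝓝[<] T) (𝓝 ζ)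

end

/-- the Chebyshev functional of a measure on the line of layers. -/
def PsiM (μ : Measure ℝ) (T s : ℝ) : ENNReal :=
  ∫⁻ t in Ioo 0 T, ENNReal.ofReal (2 / (Real.sqrt Real.pi * t)) *
    (μ (Ioo (s + t / 2) (s + 3 * t / 2))) ^ (1 / 2 : ℝ)

end MPS
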