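import Pool.Agent.helper36.MP.SpecP

set_option autoImplicit false

open Complex Metric Set Filter Topology MeasureTheory

noncomputable section

namespace MPS

lemma CHEB_meas (μ : Measure ℝ) [IsFiniteMeasure μ] :
    Measurable (fun p : ℝ × ℝ => μ (Ioo (p.1 + p.2 / 2) (p.1 + 3 * p.2 / 2))) := by
  have hs : MeasurableSet {q : (ℝ × ℝ) × ℝ | q.1.1 + q.1.2 / 2 < q.2 ∧ q.2 < q.1.1 + 3 * q.1.2 / 2} := by
    have h1 : MeasurableSet {q : (ℝ × ℝ) × ℝ | q.1.1 + q.1.2 / 2 < q.2} :=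
      measurableSet_lt (by fun_prop) (by fun_prop)
    have h2 : MeasurableSet {q : (ℝ × ℝ) × ℝ | q.2 < q.1.1 + 3 * q.1.2 / 2} :=
      measurableSet_lt (by fun_prop) (by fun_prop)
    exact h1.inter h2
  exact measurable_measure_prodMk_left hs

lemma CHEB_inner (μ : Measure ℝ) [IsFiniteMeasure μ] (t : ℝ) (ht : 0 < t) :
    ∫⁻ s : ℝ, μ (Ioo (s + t / 2) (s + 3 * t / 2)) = ENNReal.ofReal t * μ univ := by
  have hs : MeasurableSet {q : ℝ × ℝ | q.1 + t / 2 < q.2 ∧ q.2 < q.1 + 3 * t / 2} := by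
    have h1 : MeasurableSet {q : ℝ × ℝ | q.1 + t / 2 < q.2} :=
      measurableSet_lt (by fun_prop) (by fun_prop)
    have h2 : MeasurableSet {q : ℝ × ℝ | q.2 < q.1 + 3 * t / 2} :=
      measurableSet_lt (by fun_prop) (by fun_prop)
    exact h1.inter h2
  have h1 := Measure.prod_apply (μ := (volume : Measure ℝ)) (ν := μ) hs
  have h2 := Measure.prod_apply_symm (μ := (volume : Measure ℝ)) (ν := μ) hs
  have e1 : ∀ s : ℝ, Prod.mk s ⁻¹' {q : ℝ × ℝ | q.1 + t / 2 < q.2 ∧ q.2 < q.1 + 3 * t / 2} =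
      Ioo (s + t / 2) (s + 3 * t / 2) := by
    intro s; ext x; simp
  have e2 : ∀ x : ℝ, (fun s => (s, x)) ⁻¹' {q : ℝ × ℝ | q.1 + t / 2 < q.2 ∧ q.2 < q.1 + 3 * t / 2} =
      Ioo (x - 3 * t / 2) (x - t / 2) := by
    intro x; ext s; simp only [mem_preimage, mem_Ioo]
    constructor
    · rintro ⟨a, b⟩; constructor <;> linarith
    · rintro ⟨a, b⟩; constructor <;> linarith
  simp_rw [e1] at h1
  simp_rw [e2] at h2
  rw [← h1, h2]
  simp only [Real.volume_Ioo]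
  have : ∀ x : ℝ, (x - t / 2 - (x - 3 * t / 2)) = t := fun x => by ring
  simp_rw [this]
  rw [lintegral_const]

lemma CHEB_f (T : ℝ) (hT : 0 < T) :
    ∫⁻ t in Ioo 0 T, ENNReal.ofReal (t ^ (-(1 / 2) : ℝ)) = ENNReal.ofReal (2 * Real.sqrt T) := by
  rw [← ofReal_integral_eq_lintegral_ofReal]
  · congr 1
    rw [← integral_Ioc_eq_integral_Ioo, ← intervalIntegral.integral_of_le hT.le,
      integral_rpow (Or.inl (by norm_num))]
    rw [Real.zero_rpow (by norm_num), Real.sqrt_eq_rpow]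
    norm_num
    ring
  · have := intervalIntegral.intervalIntegrable_rpow' (a := 0) (b := T) (r := (-(1 / 2) : ℝ)) (by norm_num)
    rw [intervalIntegrable_iff_integrableOn_Ioo_of_le hT.le] at this
    exact this
  · refine (ae_restrict_mem measurableSet_Ioo).mono fun t ht => ?_
    exact Real.rpow_nonneg ht.1.le _

theorem CHEB : CHEB_stmt := by
  intro μ T E κ hT hE hκ hμ
  have hfin : IsFiniteMeasure μ := ⟨lt_of_le_of_lt hμ ENNReal.ofReal_lt_top⟩
  -- pointwise Cauchy-Schwarz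
  set W : ℝ → ℝ → ENNReal := fun s t => μ (Ioo (s + t / 2) (s + 3 * t / 2)) with hW
  have hWm : Measurable (Function.uncurry W) := CHEB_meas μ
  have hCS : ∀ s : ℝ, PsiM μ T s ^ (2 : ℝ) ≤ ENNReal.ofReal (8 * Real.sqrt T / Real.pi) *
      ∫⁻ t in Ioo 0 T, ENNReal.ofReal (t ^ (-(3 / 2) : ℝ)) * W s t := by
    intro s
    have hWs : Measurable (W s) := hWm.of_uncurry_left
    have h1 : PsiM μ T s = ∫⁻ t in Ioo 0 T, (ENNReal.ofReal (2 / Real.sqrt Real.pi * t ^ (-(1 / 4) : ℝ))) *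
        (ENNReal.ofReal (t ^ (-(3 / 4) : ℝ)) * W s t ^ (1 / 2 : ℝ)) := by
      unfold PsiM
      refine setLIntegral_congr_fun measurableSet_Ioo fun t ht => ?_
      rw [← mul_assoc, ← ENNReal.ofReal_mul (by have := ht.1; positivity)]
      congr 2
      rw [mul_assoc, ← Real.rpow_add ht.1]
      norm_num
      rw [Real.rpow_neg_one]
      field_simp
    have h2 := ENNReal.lintegral_mul_le_Lp_mul_Lq (volume.restrict (Ioo 0 T))
      (p := 2) (q := 2) (by constructor <;> norm_num)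
      (f := fun t => ENNReal.ofReal (2 / Real.sqrt Real.pi * t ^ (-(1 / 4) : ℝ)))
      (g := fun t => ENNReal.ofReal (t ^ (-(3 / 4) : ℝ)) * W s t ^ (1 / 2 : ℝ))
      (by fun_prop) (by
        apply AEMeasurable.mul
        · fun_prop
        · exact (hWs.pow_const _).aemeasurable)
    have h3 : ∫⁻ t in Ioo 0 T, (ENNReal.ofReal (2 / Real.sqrt Real.pi * t ^ (-(1 / 4) : ℝ))) ^ (2 : ℝ)
        = ENNReal.ofReal (8 * Real.sqrt T / Real.pi) := by
      have : ∫⁻ t in Ioo 0 T, (ENNReal.ofReal (2 / Real.sqrt Real.pi * t ^ (-(1 / 4) : ℝ))) ^ (2 : ℝ)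
        = ∫⁻ t in Ioo 0 T, ENNReal.ofReal (4 / Real.pi) * ENNReal.ofReal (t ^ (-(1 / 2) : ℝ)) := by
        refine setLIntegral_congr_fun measurableSet_Ioo fun t ht => ?_
        rw [ENNReal.ofReal_rpow_of_nonneg (by have := ht.1; positivity) (by norm_num),
          ← ENNReal.ofReal_mul (by positivity)]
        congr 1
        rw [Real.mul_rpow (by positivity) (by have := ht.1; positivity), ← Real.rpow_mul ht.1.le]
        congr 1
        · rw [Real.rpow_two, div_pow, Real.sq_sqrt Real.pi_pos.le]; norm_num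
        · norm_num
      rw [this, lintegral_const_mul' _ _ ENNReal.ofReal_ne_top, CHEB_f T hT,
        ← ENNReal.ofReal_mul (by positivity)]
      congr 1; ring
    have h4 : ∫⁻ t in Ioo 0 T, (ENNReal.ofReal (t ^ (-(3 / 4) : ℝ)) * W s t ^ (1 / 2 : ℝ)) ^ (2 : ℝ)
        = ∫⁻ t in Ioo 0 T, ENNReal.ofReal (t ^ (-(3 / 2) : ℝ)) * W s t := by
      refine setLIntegral_congr_fun measurableSet_Ioo fun t ht => ?_
      rw [ENNReal.mul_rpow_of_nonneg _ _ (by norm_num), ← ENNReal.rpow_mul,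
        ENNReal.ofReal_rpow_of_nonneg (by have := ht.1; positivity) (by norm_num), ← Real.rpow_mul ht.1.le]
      norm_num
    have h5 : PsiM μ T s ≤ (ENNReal.ofReal (8 * Real.sqrt T / Real.pi)) ^ (1 / 2 : ℝ) *
        (∫⁻ t in Ioo 0 T, ENNReal.ofReal (t ^ (-(3 / 2) : ℝ)) * W s t) ^ (1 / 2 : ℝ) := by
      rw [h1, ← h3, ← h4]
      exact h2
    calc PsiM μ T s ^ (2 : ℝ) ≤ ((ENNReal.ofReal (8 * Real.sqrt T / Real.pi)) ^ (1 / 2 : ℝ) *
        (∫⁻ t in Ioo 0 T, ENNReal.ofReal (t ^ (-(3 / 2) : ℝ)) * W s t) ^ (1 / 2 : ℝ)) ^ (2 : ℝ) :=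
          ENNReal.rpow_le_rpow h5 (by norm_num)
      _ = _ := by
        rw [ENNReal.mul_rpow_of_nonneg _ _ (by norm_num), ← ENNReal.rpow_mul, ← ENNReal.rpow_mul]
        norm_num
  -- integral in s
  have hInt : ∫⁻ s : ℝ, ∫⁻ t in Ioo 0 T, ENNReal.ofReal (t ^ (-(3 / 2) : ℝ)) * W s t ≤
      ENNReal.ofReal (2 * Real.sqrt T * E) := by
    rw [lintegral_lintegral_swap]
    · have : ∀ t ∈ Ioo 0 T, ∫⁻ s : ℝ, ENNReal.ofReal (t ^ (-(3 / 2) : ℝ)) * W s t ≤
          ENNReal.ofReal (t ^ (-(1 / 2) : ℝ)) * ENNReal.ofReal E := by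
        intro t ht
        rw [lintegral_const_mul' _ _ ENNReal.ofReal_ne_top, CHEB_inner μ t ht.1, ← mul_assoc,
          ← ENNReal.ofReal_mul (by have := ht.1; positivity)]
        have e : t ^ (-(3 / 2) : ℝ) * t = t ^ (-(1 / 2) : ℝ) := by
          nth_rewrite 2 [← Real.rpow_one t]
          rw [← Real.rpow_add ht.1]; norm_num
        rw [e]
        gcongr
      refine (setLIntegral_mono' measurableSet_Ioo this).trans ?_
      rw [lintegral_mul_const' _ _ ENNReal.ofReal_ne_top, CHEB_f T hT, ← ENNReal.ofReal_mul (by positivity)]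
    · apply AEMeasurable.mul
      · fun_prop
      · exact hWm.aemeasurable
  have hTot : ∫⁻ s : ℝ, PsiM μ T s ^ (2 : ℝ) ≤ ENNReal.ofReal (16 * T * E / Real.pi) := by
    calc ∫⁻ s : ℝ, PsiM μ T s ^ (2 : ℝ) ≤ ∫⁻ s : ℝ, ENNReal.ofReal (8 * Real.sqrt T / Real.pi) *
      ∫⁻ t in Ioo 0 T, ENNReal.ofReal (t ^ (-(3 / 2) : ℝ)) * W s t := lintegral_mono hCS
      _ = ENNReal.ofReal (8 * Real.sqrt T / Real.pi) * ∫⁻ s : ℝ, 
        ∫⁻ t in Ioo 0 T, ENNReal.ofReal (t ^ (-(3 / 2) : ℝ)) * W s t := by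
        rw [lintegral_const_mul' _ _ ENNReal.ofReal_ne_top]
      _ ≤ ENNReal.ofReal (8 * Real.sqrt T / Real.pi) * ENNReal.ofReal (2 * Real.sqrt T * E) := by
        gcongr
      _ = ENNReal.ofReal (16 * T * E / Real.pi) := by
        rw [← ENNReal.ofReal_mul (by positivity)]
        congr 1
        have : Real.sqrt T * Real.sqrt T = T := Real.mul_self_sqrt hT.le
        field_simp
        nlinarith [this]
  have hPm : Measurable (fun s => PsiM μ T s) := by
    unfold PsiM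
    have hm : Measurable (Function.uncurry fun (s t : ℝ) => ENNReal.ofReal (2 / (Real.sqrt Real.pi * t)) *
        (μ (Ioo (s + t / 2) (s + 3 * t / 2))) ^ (1 / 2 : ℝ)) := by
      apply Measurable.mul
      · fun_prop
      · exact hWm.pow_const _
    exact hm.lintegral_prod_right'
  have hMk := mul_meas_ge_le_lintegral₀ (μ := (volume : Measure ℝ)) (f := fun s => PsiM μ T s ^ (2 : ℝ))
    (hPm.pow_const _).aemeasurable (ENNReal.ofReal (κ ^ 2))
  have hsub : {s : ℝ | ENNReal.ofReal κ ≤ PsiM μ T s} ⊆ {s | ENNReal.ofReal (κ ^ 2) ≤ PsiM μ T s ^ (2 : ℝ)} := by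
    intro s hs
    simp only [mem_setOf_eq] at hs ⊢
    have : ENNReal.ofReal κ ^ (2 : ℝ) ≤ PsiM μ T s ^ (2 : ℝ) := ENNReal.rpow_le_rpow hs (by norm_num)
    rwa [ENNReal.ofReal_rpow_of_nonneg hκ.le (by norm_num), Real.rpow_two] at this
  have hk2 : ENNReal.ofReal (κ ^ 2) ≠ 0 := by simp [hκ.ne']
  have hfinal : ENNReal.ofReal (κ ^ 2) * volume {s : ℝ | ENNReal.ofReal κ ≤ PsiM μ T s} ≤
      ENNReal.ofReal (16 * T * E / Real.pi) :=
    le_trans (by gcongr) (hMk.trans hTot)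
  have : volume {s : ℝ | ENNReal.ofReal κ ≤ PsiM μ T s} ≤
      ENNReal.ofReal (16 * T * E / Real.pi) / ENNReal.ofReal (κ ^ 2) := by
    rw [ENNReal.le_div_iff_mul_le (Or.inl hk2) (Or.inl ENNReal.ofReal_ne_top), mul_comm]
    exact hfinal
  refine this.trans (le_of_eq ?_)
  rw [← ENNReal.ofReal_div_of_pos (by positivity)]
  congr 1
  field_simp

end MPS
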