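import Pool.Agent.helper11.MP.FA
import Pool.Agent.helper11.MP.PHI
import Pool.Agent.helper16.MP.MAINA
import Pool.Agent.helper16.MP.P2L
import Pool.Agent.helper16.MP.TP
import Pool.Agent.helper20.MP.NR
import Pool.Agent.helper20.MP.P1L
import Pool.Agent.helper20.MP.THA
import Pool.Agent.helper21.MP.HSM
import Pool.Agent.helper21.MP.MU2
import Pool.Agent.helper21.MP.NGF
import Pool.Agent.helper22.MP.NM
import Pool.Agent.helper24.MP.NI
import Pool.Agent.helper24.MP.NLB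
import Pool.Agent.helper24.MP.TG
import Pool.Agent.helper25.MP.HAR
import Pool.Agent.helper25.MP.LV
import Pool.Agent.helper25.MP.PNX
import Pool.Agent.helper25.MP.ZC
import Pool.Agent.helper25.MP.ZL
import Pool.Agent.helper27.MP.EV1
import Pool.Agent.helper27.MP.TB
import Pool.Agent.helper28.MP.NFM
import Pool.Agent.helper28.MP.P2A
import Pool.Agent.helper30.MP.ENB
import Pool.Agent.helper30.MP.P1U
import Pool.Agent.helper30.MP.STEP2
import Pool.Agent.helper30.MP.TR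
import Pool.Agent.helper31.MP.LEI
import Pool.Agent.helper32.MP.TGP
import Pool.Agent.helper34.MP.NHP
import Pool.Agent.helper36.MP.CHEB
import Pool.Agent.helper43.MP.MCV
import Pool.Agent.helper44.MP.LEA
import Pool.Agent.helper46.MP.CNT
import Pool.Agent.helper46.MP.EV2A
import Pool.Agent.helper46.MP.INC1
import Pool.Agent.helper46.MP.NFI
import Pool.Agent.helper51.MP.ENA
import Pool.Agent.helper51.MP.MU1
import Pool.Agent.helper51.MP.P2H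
import Pool.Agent.helper52.MP.NG
import Pool.Agent.helper52.MP.PH1
import Pool.Agent.helper52.MP.PH2
import Pool.Agent.helper52.MP.ZR
import Pool.Agent.helper59.MP.EV2
import Pool.Agent.helper59.MP.FB
import Pool.Agent.helper59.MP.NL0
import Pool.Agent.helper59.MP.P1A
import Pool.Agent.helper6.MP.PRONG
import Pool.Agent.helper6.MP.ROT
import Pool.Agent.helper60.MP.ZBC
import Pool.Agent.helper61.MP.NP
import Pool.Agent.helper70.MP.NOSL
import Pool.Agent.helper70.MP.PRC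
import Pool.Agent.helper71.MP.NPL
import Pool.Agent.helper74.MP.MA
import Pool.Agent.helper74.MP.MD
import Pool.Agent.helper74.MP.MD1
import Pool.Agent.helper77.MP.REACH1
import Pool.Agent.helper78.MP.FC
import Pool.Agent.helper78.MP.HCH
import Pool.Agent.helper78.MP.ND
import Pool.Agent.helper78.MP.PT2
import Pool.Agent.helper79.MP.ARC
import Pool.Agent.helper79.MP.LR
import Pool.Agent.helper79.MP.NH
import Pool.Agent.helper82.MP.REACH2
import Pool.Agent.helper82.MP.SEQ1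
import Pool.Agent.helper90.MP.PRQ
import Pool.Agent.helper91.MP.FD
import Pool.Agent.helper91.MP.HMX
import Pool.Agent.helper91.MP.TBD
import Pool.Agent.helper92.MP.MEAS2
import Pool.Agent.helper92.MP.MI
import Pool.Agent.helper92.MP.ZC0
import Pool.Agent.helper97.MP.FR
import Pool.Agent.helper97.MP.NU
import Pool.Agent.helper97.MP.STEP1
import Pool.Agent.helper97.MP.ZK1
import Pool.Agent.helper98.MP.END
import Pool.Agent.helper98.MP.EVT
import Pool.Agent.helper99.MP.LRU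
import Pool.Agent.helper99.MP.PT1
import Pool.Agent.helper99.MP.ZCYC
import Pool.Agent.helper99.MP.ZN

/-!
# Project mp: (MP_af9036_an): assembly of the modules
-/

set_option autoImplicit false

namespace MPS

theorem NL0_ok : NL0_stmt := MPS.NL0
theorem NU_ok : NU_stmt := MPS.NU NL0_ok
theorem NR_ok : NR_stmt := MPS.NR
theorem NP_ok : NP_stmt := MPS.NP
theorem NH_ok : NH_stmt := MPS.NH
theorem NLB_ok : NLB_stmt := MPS.NLB
theorem NM_ok : NM_stmt := MPS.NM NP_ok NH_ok NLB_ok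
theorem NG_ok : NG_stmt := MPS.NG
theorem NI_ok : NI_stmt := MPS.NI NU_ok NH_ok
theorem ND_ok : ND_stmt := MPS.ND NU_ok NH_ok
theorem NFI_ok : NFI_stmt := MPS.NFI NU_ok NI_ok
theorem NFM_ok : NFM_stmt := MPS.NFM
theorem NPL_ok : NPL_stmt := MPS.NPL
theorem NHP_ok : NHP_stmt := MPS.NHP NU_ok NH_ok
theorem NGF_ok : NGF_stmt := MPS.NGF
theorem TP_ok : TP_stmt := MPS.TP
theorem TB_ok : TB_stmt := MPS.TB
theorem TG_ok : TG_stmt := MPS.TG
theorem MI_ok : MI_stmt := MPS.MI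
theorem TGP_ok : TGP_stmt := MPS.TGP MI_ok
theorem TR_ok : TR_stmt := MPS.TR
theorem TBD_ok : TBD_stmt := MPS.TBD_main
theorem MCV_ok : MCV_stmt := MPS.MCV
theorem MD_ok : MD_stmt := MPS.MD MI_ok MCV_ok TB_ok TBD_ok
theorem MA_ok : MA_stmt := MPS.MA MI_ok MD_ok
theorem LR_ok : LR_stmt := MPS.LR
theorem LRU_ok : LRU_stmt := MPS.LRU
theorem LEA_ok : LEA_stmt := MPS.LEA
theorem LEI_ok : LEI_stmt := MPS.LEI TB_ok LEA_ok
theorem LV_ok : LV_stmt := MPS.LV LEI_ok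
theorem HSM_ok : HSM_stmt := MPS.HSM
theorem HAR_ok : HAR_stmt := MPS.HAR HSM_ok
theorem HCH_ok : HCH_stmt := MPS.HCH HAR_ok
theorem HMX_ok : HMX_stmt := MPS.HMX_main
theorem EVT_ok : EVT_stmt := MPS.EVT HCH_ok
theorem P1A_ok : P1A_stmt := MPS.P1A NI_ok TBD_ok NH_ok
theorem P1U_ok : P1U_stmt := MPS.P1U
theorem P1L_ok : P1L_stmt := MPS.P1L LEA_ok LV_ok P1A_ok P1U_ok MI_ok MA_ok
theorem MU1_ok : MU1_stmt := MPS.MU1 P1A_ok P1L_ok LEA_ok HSM_ok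
theorem PT1_ok : PT1_stmt := MPS.PT1 MU1_ok P1A_ok P1U_ok HMX_ok LV_ok
theorem PHI_ok : PHI_stmt := MPS.PHI P1U_ok PT1_ok
theorem PNX_ok : PNX_stmt := MPS.PNX LEA_ok P1A_ok P1U_ok
theorem INC1_ok : INC1_stmt := MPS.INC1 P1U_ok PHI_ok PNX_ok NH_ok
theorem REACH1_ok : REACH1_stmt := MPS.REACH1 LEA_ok P1A_ok NH_ok NPL_ok INC1_ok ND_ok PT1_ok
theorem EV1_ok : EV1_stmt := MPS.EV1 LR_ok P1A_ok LEA_ok LEI_ok LV_ok MI_ok MA_ok EVT_ok PT1_ok
theorem STEP1_ok : STEP1_stmt := MPS.STEP1 LR_ok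
theorem SEQ1_ok : SEQ1_stmt := MPS.SEQ1 STEP1_ok
theorem CHEB_ok : CHEB_stmt := MPS.CHEB
theorem PH1_ok : PH1_stmt := MPS.PH1 SEQ1_ok MU1_ok REACH1_ok CHEB_ok EV1_ok P1A_ok
theorem P2H_ok : P2H_stmt := MPS.P2H NFI_ok PT1_ok
theorem P2A_ok : P2A_stmt := MPS.P2A LRU_ok TBD_ok P2H_ok
theorem P2L_ok : P2L_stmt := MPS.P2L LEA_ok LV_ok MI_ok MA_ok HAR_ok HSM_ok P2A_ok
theorem MU2_ok : MU2_stmt := MPS.MU2 P2A_ok P2L_ok LEA_ok HSM_ok
theorem PT2_ok : PT2_stmt := MPS.PT2 P2L_ok HSM_ok P2A_ok LEA_ok LV_ok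
theorem REACH2_ok : REACH2_stmt := MPS.REACH2 NPL_ok NHP_ok LEA_ok INC1_ok P2H_ok P2A_ok PT2_ok
theorem EV2A_ok : EV2A_stmt := MPS.EV2A P2H_ok P2A_ok LR_ok LRU_ok LEA_ok LV_ok MI_ok MA_ok HSM_ok HCH_ok
theorem EV2_ok : EV2_stmt := MPS.EV2 EV2A_ok EVT_ok LEI_ok LEA_ok LV_ok MA_ok MI_ok P2A_ok
theorem MEAS2_ok : MEAS2_stmt := MPS.MEAS2 MU2_ok REACH2_ok EV2_ok CHEB_ok
theorem STEP2_ok : STEP2_stmt := MPS.STEP2 LR_ok
theorem PH2_ok : PH2_stmt := MPS.PH2 MEAS2_ok STEP2_ok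
theorem ROT_ok : ROT_stmt := MPS.ROT PT2_ok P2H_ok P2A_ok LEA_ok INC1_ok
theorem FR_ok : FR_stmt := MPS.FR NG_ok NGF_ok ND_ok TBD_ok TR_ok PH1_ok PH2_ok ROT_ok
theorem ENA_ok : ENA_stmt := MPS.ENA NH_ok
theorem ENB_ok : ENB_stmt := MPS.ENB
theorem END_ok : END_stmt := MPS.END ENA_ok ENB_ok TP_ok NU_ok NR_ok
theorem PRQ_ok : PRQ_stmt := MPS.PRQ
theorem PRC_ok : PRC_stmt := MPS.PRC
theorem PRONG_ok : PRONG_stmt := MPS.PRONG TP_ok PRQ_ok PRC_ok NU_ok NI_ok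
theorem CNT_ok : CNT_stmt := MPS.CNT TP_ok END_ok PRONG_ok
theorem NOSL_ok : NOSL_stmt := MPS.NOSL
theorem ARC_ok : ARC_stmt := MPS.ARC
theorem MAINA_ok : MAINA_stmt := MPS.MAINA FR_ok NM_ok CNT_ok NFM_ok ARC_ok NOSL_ok
theorem THA_ok : THA_stmt := MPS.THA MAINA_ok TGP_ok
theorem ZCYC_ok : ZCYC_stmt := MPS.ZCYC
theorem ZL_ok : ZL_stmt := MPS.ZL
theorem ZBIG_ok : ZBIG_stmt := MPS.ZBIG
theorem ZK1_ok : ZK1_stmt := MPS.ZK1
theorem FA_ok : FA_stmt := MPS.FA ZBIG_ok ZK1_ok ZCYC_ok TG_ok ZL_ok THA_ok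
theorem ZR_ok : ZR_stmt := MPS.ZR
theorem ZN_ok : ZN_stmt := MPS.ZN ZR_ok ZBIG_ok
theorem ZC0_ok : ZC0_stmt := MPS.ZC0
theorem ZC_ok : ZC_stmt := MPS.ZC ZC0_ok
theorem ZBC_ok : ZBC_stmt := MPS.ZBC
theorem FB_ok : FB_stmt := MPS.FB FA_ok ZN_ok ZC_ok ZBC_ok
theorem FD_ok : FD_stmt := MPS.FD FB_ok
theorem FC_ok : FC_stmt := MPS.FC FB_ok

end MPS
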