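import Pool.Agent.helper36.MP.SpecQ

/-!
# Project mp: (MP_af9036_an): part C (counting of slits, Theorem A'), part A (Theorem A)

Paper proof /team-store/MP_af9036_strip_helper36.md, section 7, quoted as [paper, (x.y)].
File `Pool/Agent/<seat>/MP/XX.lean`, `import Pool.Agent.helper36.MP.SpecC`, `namespace MPS`,
`theorem XX (h : YY_stmt) ... : XX_stmt`. Any other statement (also of the earlier Spec files) may be a hypothesis (no circles).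
-/

set_option autoImplicit false

open Complex Metric Set Filter Topology MeasureTheory

noncomputable section

namespace MPS

/-- ENA: the maximal extension along a ray [paper, (7.1)].
PROOF. `S = {t | ¬ Slit b g ψ t y}` (extensions to `HP 0 ∪ {|Im w - y| < e, Re w < t + e}`) is a down-set, contains all `t < 0`, and `d ∉ S`. `T = sSup S ∈ [0,d]`; `T ∉ S` (if
`T ∈ S` with `e` then `T + e/2 ∈ S`, while `T + e/2 > sSup S`; if `T = d` by hypothesis). For `t < T` choose `e_t`, `χ_t`. Two of them agree on the intersection of their domains: it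
is `HP 0 ∪ {|Im w - y| < e, Re w < u}`, open and (pre)connected, and they agree on `HP 0`: identity theorem. `Ω` = union of the domains, `χ` = the glued function. -/
def ENA_stmt : Prop := ∀ (k : ℕ) [NeZero k] (b g : ZMod k → ℂ) (i : ZMod k) (ψ : ℂ → ℂ) (d y : ℝ),
  PN b g i ψ 1 → 0 < d → Slit b g ψ d y →
  ∃ T : ℝ, 0 ≤ T ∧ T ≤ d ∧ Slit b g ψ T y ∧ ∃ (χ : ℂ → ℂ) (Ω : Set ℂ), IsOpen Ω ∧ HP 0 ⊆ Ω ∧
    (∀ w ∈ Ω, ∀ s : ℝ, 0 ≤ s → w - s ∈ Ω) ∧ (∀ t : ℝ, t < T → (t : ℂ) + y * I ∈ Ω) ∧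
    IsNat b g χ Ω ∧ EqOn χ (hat ψ) (HP 0)

/-- ENB: a natural map along a ray stays bounded and away from the poles [paper, (7.1)].
PROOF. `γ t = χ (t + iy)`, `‖γ'‖² ‖BB (γ)‖ = 1`. By TP, `BB z = P(z)/∏(z-b i)²` with `deg P = 2k-1`: `‖BB z‖ ≥ c₀/‖z‖` for `‖z‖ ≥ M₀`; while `‖γ‖ ≥ M₀`, `‖(√‖γ‖)'‖ ≤ 1/(2√c₀)`; so `√‖γ t‖` is at
most `max (√M₀) (√‖γ (T-1)‖) + 1/(2√c₀)`. Near `b j` (double pole, coefficient 1): `‖BB z‖ ≥ 1/(4‖z - b j‖²)`, so `|(log‖γ - b j‖)'| ≤ 2` while `‖γ - b j‖ < η₀`, and `‖γ t - b j‖ ≥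
e^{-2} min η₀ ‖γ (T-1) - b j‖` (compare with the last time of entering). -/
def ENB_stmt : Prop := ∀ (k : ℕ) [NeZero k] (b g : ZMod k → ℂ) (χ : ℂ → ℂ) (Ω : Set ℂ) (T y : ℝ),
  Function.Injective b → ∑ j, g j ≠ 0 → IsOpen Ω → IsNat b g χ Ω →
  (∀ t : ℝ, t < T → (t : ℂ) + y * I ∈ Ω) →
  ∃ M η : ℝ, 0 < η ∧ ∀ t ∈ Ico (T - 1) T, ‖χ ((t : ℂ) + y * I)‖ ≤ M ∧
    ∀ j, η ≤ ‖χ ((t : ℂ) + y * I) - b j‖

/-- END: a slit direction ends at a zero [paper, (7.1)].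
PROOF. ENA, ENB. Let `zs` be a limit point of `γ t`, `t → T⁻`, with `P(zs) ≠ 0`. `zs ≠ b j`, `BB zs ≠ 0` (TP), NR at `zs`: `r`, `ε`. Take `t < T`, `T - t < r/4`, `γ t ∈ ball zs ε`, and the natural map
`χ'` on `ball 0 r` with `χ' 0 = γ t`, `deriv χ' 0 = deriv χ (t + iy)`. There is `e > 0` (compactness of the segment from `min 0 (t - r/4) + iy` to `t + iy` in `Ω`, left invariance) such that
`{|Im w - y| < e, Re w < t + e} ⊆ Ω` and `{|Im w - y| < e, t - e < Re w < T + e} ⊆ ball (t + iy) r`; on the (convex) overlap `{|Im w - y| < e, |Re w - t| < e}` both maps agree (NU, `s = 1`).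
Gluing gives an extension to `HP 0 ∪ {|Im w - y| < e, Re w < T + e}` (use `χ` for `Re w < t + e`, the translate of `χ'` for `t - e < Re w`; if `t - e < 0` the two agree on the whole strip part
`{|Im w - y| < e, t - e < Re w < t + e}`, so the definition is consistent on `HP 0` too): contradiction to `Slit T`. So all limit points are among the finitely many zeros of `P`
(`Ppoly ≠ 0`); `γ` is bounded and continuous, so it converges to one of them. -/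
def END_stmt : Prop := ∀ (k : ℕ) [NeZero k] (b g : ZMod k → ℂ) (i : ZMod k) (ψ : ℂ → ℂ) (d y : ℝ),
  Function.Injective b → ∑ j, g j ≠ 0 → PN b g i ψ 1 → 0 < d → Slit b g ψ d y →
  ∃ ζ : ℂ, (Ppoly b g).eval ζ = 0 ∧ Ends b g ψ y ζ

/-- PRQ: the square of the natural coordinate near a zero of order `m` [paper, (7.2)].
PROOF. Let `σ² = B₁` near `ζ` (`exists_lift_pow`), `K z = ∫_0^1 2 u^(m+1) σ(ζ + u² (z - ζ)) du` (holomorphic), so `(m+2) K + 2 (z-ζ) K' = 2σ` (differentiate; or use power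
series: if `σ = ∑ s_j (z-ζ)^j`, `K = ∑ 2 s_j/(m+2+2j) (z-ζ)^j`), `K ζ = 2σ ζ/(m+2) ≠ 0`. `Q = (z-ζ)^(m+2) K²`: `Q' = (z-ζ)^(m+1) K ((m+2)K + 2(z-ζ)K') = 2(z-ζ)^(m+1) K σ`, `Q'^2 = 4 Q (z-ζ)^m B₁`. For the number of
solutions: `K² = K₂^(m+2)` near `ζ`, `h z = (z-ζ) K₂ z` is injective near `ζ` (`h' ζ ≠ 0`) and `h^(m+2) = Q`; there are at most `m+2` numbers with `(m+2)`-th power `s`. -/
def PRQ_stmt : Prop := ∀ (B B₁ : ℂ → ℂ) (ζ : ℂ) (m : ℕ) (r₀ : ℝ), 0 < r₀ →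
  DifferentiableOn ℂ B₁ (ball ζ r₀) → B₁ ζ ≠ 0 → (∀ z ∈ ball ζ r₀, B z = (z - ζ) ^ m * B₁ z) →
  ∃ r > (0 : ℝ), r ≤ r₀ ∧ ∃ Q : ℂ → ℂ, DifferentiableOn ℂ Q (ball ζ r) ∧
    (∀ z ∈ ball ζ r, deriv Q z ^ 2 = 4 * Q z * B z) ∧ (∀ z ∈ ball ζ r, Q z = 0 ↔ z = ζ) ∧
    ∀ (s : ℂ) (F : Finset ℂ), (∀ z ∈ F, z ∈ ball ζ r ∧ Q z = s) → F.card ≤ m + 2

/-- PRC: the equation `q'² = 4q` [paper, (7.2)].
PROOF. `ρ = q'/2` is continuous, `ρ² = q ≠ 0`; so `ρ` is differentiable (locally it is a holomorphic square root of `q`) and `2ρρ' = q' = 2ρ`, `ρ' = 1`; `ρ² = q → 0` gives `ρ t = t - T`. -/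
def PRC_stmt : Prop := ∀ (a T : ℝ) (q q' : ℝ → ℂ), a < T → (∀ t ∈ Ioo a T, HasDerivAt q (q' t) t) →
  ContinuousOn q' (Ioo a T) → (∀ t ∈ Ioo a T, q' t ^ 2 = 4 * q t ∧ q t ≠ 0) →
  Tendsto q (𝓝[<] T) (𝓝 0) → ∀ t ∈ Ioo a T, q t = ((t - T : ℝ) : ℂ) ^ 2 ∧ q' t = 2 * ((t - T : ℝ) : ℂ)

/-- PRONG: at most `m+2` rays end at a zero of order `m` [paper, (7.2)].
PROOF. `m = rootMultiplicity ζ`, `BB z = (z-ζ)^m B₁ z` near `ζ` (`ζ ≠ b j` by TP). PRQ: `Q` on `ball ζ r`. For `p = (i,y) ∈ F` with `T`, `χ`, `Ω` from `Ends`, `γ t = χ (t+iy) ∈ ball ζ r` for `t` near `T`, `≠ ζ`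
(`BB ζ = 0` or, if `m = 0`, impossible as `eval ζ = 0`; a natural map avoids zeros of `BB`). `q = Q ∘ γ`, `q' = Q'(γ) γ'`, `q'^2 = 4 Q(γ) BB(γ) γ'^2 = 4q`. PRC: `q t = (t-T)²`, `Q'(γ) γ' = 2(t-T)`. Choose a common
small `s > 0`; the points `z_p = γ_p (T_p - s) ∈ ball ζ r` satisfy `Q z_p = s²`. They are distinct: if `z_p = z_{p'}` then `Q'(z) γ_p' = -2s = Q'(z) γ_{p'}'`, so the derivatives of the natural maps
agree (nonzero); NU with `s = 1` (its sign must be `1`) along the segments to the left (`Ω` left invariant): `ψ_i (exp (w₁ - t)) = ψ_{i'} (exp (w₂ - t))` for all large `t`; `t → ∞`: `b i = b i'`, `i = i'`; NI: `exp w₁ = exp w₂`, so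
`y = y'` as both are in `[0, 2π)`. So `F.card ≤ m + 2`. -/
def PRONG_stmt : Prop := ∀ (k : ℕ) [NeZero k] (b g : ZMod k → ℂ) (ψ : ZMod k → ℂ → ℂ) (ζ : ℂ)
  (F : Finset (ZMod k × ℝ)), Function.Injective b → (∀ i, PN b g i (ψ i) 1) →
  (Ppoly b g).eval ζ = 0 →
  (∀ p ∈ F, 0 ≤ p.2 ∧ p.2 < 2 * Real.pi ∧ Ends b g (ψ p.1) p.2 ζ) →
  F.card ≤ (Ppoly b g).rootMultiplicity ζ + 2

/-- CNT: some cylinder has at most five slit directions [paper, (7.3)].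
PROOF. Otherwise choose for every `i` a set `F i` of six slit directions in `[0,2π)`; the set `F = {(i,y) | y ∈ F i}` has `6k` elements; by END every element ends at a zero of `P`; by PRONG
`6k ≤ ∑_{ζ} (m_ζ + 2) ≤ 3 ∑_ζ m_ζ ≤ 3 natDegree = 3(2k-1)` (the sum over the distinct roots, `m_ζ ≥ 1`; TP). -/
def CNT_stmt : Prop := ∀ (k : ℕ) [NeZero k] (b g : ZMod k → ℂ) (ψ : ZMod k → ℂ → ℂ) (d : ℝ),
  Function.Injective b → ∑ j, g j ≠ 0 → (∀ i, PN b g i (ψ i) 1) → 0 < d →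
  ∃ i, ∀ F : Finset ℝ, (∀ y ∈ F, 0 ≤ y ∧ y < 2 * Real.pi ∧ Slit b g (ψ i) d y) → F.card ≤ 5

/-- NOSL: an arc without slit directions is flat [paper, (7.4)]; periodicity; a point without flat discs
is a slit direction.
PROOF. First: for `|y' - y| < d` choose `e`, `χ_{y'}`. Define `χ w = hat ψ w` on `HP 0` and `χ w = χ_{Im w} w` on the ball. If `|Im w' - Im w| < e (Im w)`, `Re w', Re w < d`, the functions
`χ_{Im w}` and `χ_{Im w'}` agree at `w'` (identity theorem on the convex set `{|Im - Im w| < e, |Im - Im w'| < e', Re < d}`, which meets `HP 0` where both are `hat ψ`); so near `w` the function `χ` is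
`χ_{Im w}`. Second, third: `hat ψ` is `2πi`-periodic; translate. Fourth: an extension as in `¬ Slit` contains the domain of `Flat` with `r = min e d`. Fifth: monotonicity. -/
def NOSL_stmt : Prop := ∀ (k : ℕ) [NeZero k] (b g : ZMod k → ℂ) (i : ZMod k) (ψ : ℂ → ℂ),
  PN b g i ψ 1 → (∀ y d : ℝ, 0 < d → (∀ y', |y' - y| < d → ¬ Slit b g ψ d y') → Flat b g ψ y d) ∧
  (∀ (y r : ℝ) (m : ℤ), Flat b g ψ (y + m * (2 * Real.pi)) r ↔ Flat b g ψ y r) ∧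
  (∀ (y d : ℝ) (m : ℤ), Slit b g ψ d (y + m * (2 * Real.pi)) ↔ Slit b g ψ d y) ∧
  (∀ y d : ℝ, 0 < d → (∀ r > (0 : ℝ), ¬ Flat b g ψ y r) → Slit b g ψ d y) ∧
  (∀ y r r' : ℝ, r' ≤ r → Flat b g ψ y r → Flat b g ψ y r')

/-- ARC: the pigeonhole argument [paper, (7.5)].
PROOF. Otherwise for each `a = 1..5` some `y_a ∈ S` within `d₁ = min d₀ 1/10` of `y₀ + a θ`. Reduce `y₀, y_1, ..., y_5` mod `2π` to `[0,2π)` (still in `S`): they are six different numbers, since `y_a ≡ y_b` (`b < a`, `y_0` exact) would give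
`‖exp (i(a-b)θ) - 1‖ ≤ 2 d₁ < d₀`. -/
def ARC_stmt : Prop := ∀ (S : Set ℝ) (y₀ θ d₀ : ℝ), 0 < d₀ →
  (∀ y ∈ S, ∀ m : ℤ, y + m * (2 * Real.pi) ∈ S) → y₀ ∈ S →
  (∀ F : Finset ℝ, (∀ y ∈ F, 0 ≤ y ∧ y < 2 * Real.pi ∧ y ∈ S) → F.card ≤ 5) →
  (∀ j ∈ Finset.Icc (1 : ℕ) 5, d₀ ≤ ‖Complex.exp ((j : ℂ) * θ * I) - 1‖) →
  ∃ a ∈ Finset.Icc (1 : ℕ) 5, ∀ y : ℝ, |y - (y₀ + a * θ)| ≤ min d₀ 1 / 10 → y ∉ S

/-- MAINA: Theorem A' [paper, section 1 and (7.5)].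
PROOF. `d₁ = min d₀ 1/10`. `R` = maximum of the `R₀`, `ε` = minimum of the `ε₀` of FR for `ρ₀ = d₁/64^j`, `j = 0..4`. NM gives `ψ`; so `SU n k c b g ψ R ε`. CNT with `d = d₁`: `i`. NFM: `y₀` without
flat discs. ARC for `S = {y | Slit b g (ψ i) d₁ y}`, `θ = arg ρ` (`ρ/‖ρ‖ = exp (iθ)`): `a`. NOSL: `Flat b g (ψ i) (y₀ + aθ) d₁`. FR `a` times: `Flat b g (ψ i) y₀ (d₁/64^a)`: contradiction. -/
def MAINA_stmt : Prop := ∀ (n : ℕ) (d₀ : ℝ), 2 ≤ n → 0 < d₀ → ∃ R : ℝ, 4 ≤ R ∧ ∃ ε > (0 : ℝ),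
  ∀ (k : ℕ) [NeZero k] (c : ℂ) (b g : ZMod k → ℂ), 2 ≤ k → ‖c‖ ≤ 3 → IsCyc n c b →
  1 < ‖rho n b‖ → (∀ j ∈ Finset.Icc 1 5, d₀ ≤ ‖(rho n b / ‖rho n b‖) ^ j - 1‖) → ∑ i, g i ≠ 0 →
  ¬ (2 * Real.pi * Real.log ‖rho n b‖ + 4 * ∫ z in ball (0 : ℂ) R, ‖er n c b g z‖ ≤ ε)

/-- THA: Theorem A for the exact solution `g`.
PROOF. MAINA gives `R`, `ε'`. If `log‖ρ‖ + ‖∑ g‖ < ε := ε'/(32 π R)` then TGP with `η = ε'/16` gives `g'` with `∑ g' ≠ 0` and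
`2π log‖ρ‖ + 4∫‖er g'‖ ≤ 16 π R (log‖ρ‖ + ‖∑ g‖) + 4η ≤ ε'`. -/
def THA_stmt : Prop := ∀ (n : ℕ) (d₀ : ℝ), 2 ≤ n → 0 < d₀ → ∃ ε > (0 : ℝ),
  ∀ (k : ℕ) [NeZero k] (c : ℂ) (b g : ZMod k → ℂ), 2 ≤ k → ‖c‖ ≤ 3 → IsCyc n c b →
  1 < ‖rho n b‖ → (∀ j ∈ Finset.Icc 1 5, d₀ ≤ ‖(rho n b / ‖rho n b‖) ^ j - 1‖) →
  (∀ i, g (i + 1) = g i / fd n (b i) - fdd n (b i) / fd n (b i) ^ 2) →
  ε ≤ Real.log ‖rho n b‖ + ‖∑ i, g i‖

end MPS
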