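import Pool.Agent.helper36.MP.SpecP

/-!
# Project mp: (MP_af9036_an): part Q (Phase 2 and rotation)

Paper proof /team-store/MP_af9036_strip_helper36.md, section 6, quoted as [paper, (x.y)].
File `Pool/Agent/<seat>/MP/XX.lean`, `import Pool.Agent.helper36.MP.SpecQ`, `namespace MPS`,
`theorem XX (h : YY_stmt) ... : XX_stmt`. Any other statement (also of SpecN, SpecP) may be a hypothesis (no circles).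

Everywhere `x = i y`, `w₀ = x - ρ₁/4`, `δ = ρ₁/64`, `D t = ball x t`.
-/

set_option autoImplicit false

open Complex Metric Set Filter Topology MeasureTheory

noncomputable section

namespace MPS

/-- the standing assumptions of Phase 2 for a system with `Q` levels. -/
structure H2 (n k : ℕ) [NeZero k] (c : ℂ) (b g : ZMod k → ℂ) (ψ : ZMod k → ℂ → ℂ) (R ε : ℝ)
    (y ρ₁ : ℝ) (χ : ℂ → ℂ) (G1 : ℕ → ℂ → ℂ) (ps : ℕ) (T : ℕ → ℝ) (G : ℕ → ℂ → ℂ) (Q : ℕ) : Prop where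
  su2 : SU2 n k c b g ψ R ε y ρ₁ χ G1 ps
  sys : Sys2 n c y ρ₁ χ G1 ps T G Q
  hQ : Q ≤ k

/-- the measure `μ` of layers (layer `s` = circle of radius `ρ₁ - s` about `i y`) dominates the level functions. -/
def Mu2 {k : ℕ} [NeZero k] (n : ℕ) (c : ℂ) (b g : ZMod k → ℂ) (y ρ₁ : ℝ) (T : ℕ → ℝ)
    (G : ℕ → ℂ → ℂ) (Q : ℕ) (μ : Measure ℝ) : Prop :=
  ∀ p, 1 ≤ p → p ≤ Q → ∀ (s t : ℝ) (w : ℂ), ρ₁ - T p ≤ s → 0 < t →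
    ‖w - (y : ℂ) * I‖ = ρ₁ - (s + t) →
    ENNReal.ofReal (∑ q ∈ Finset.Icc 1 p, lev n c b g G q w) ≤
      ENNReal.ofReal (4 / (Real.pi * t ^ 2)) * μ (Ioo (s + t / 2) (s + 3 * t / 2))

/-- failure of the level `q` at the radius `r`. -/
def Fail2 (c : ℂ) (y ρ₁ : ℝ) (χ : ℂ → ℂ) (ps : ℕ) (G : ℕ → ℂ → ℂ) (q : ℕ) (r : ℝ) : Prop :=
  (1 ≤ q ∧ q ≠ ps ∧ ¬ Disjoint (G q '' ball ((y : ℂ) * I) r) (χ '' ball ((y : ℂ) * I) ρ₁)) ∨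
    c ∈ G q '' ball ((y : ℂ) * I) r

/-- P2H: the Phase 1 data inside Phase 2.
PROOF. `H1`: `δ = ρ₁/64 ≤ 1/1024`. PT1 for `G1` (constant cutoff `3δ`) at `w₀`: depth `ρ₁/4 - 3ρ₁/64 = 13ρ₁/64 ≤ 1`, `4·4096/169 ≤ 97`. -/
def P2H_stmt : Prop := ∀ (n k : ℕ) [NeZero k] (c : ℂ) (b g : ZMod k → ℂ) (ψ : ZMod k → ℂ → ℂ)
  (R ε y ρ₁ : ℝ) (χ : ℂ → ℂ) (G1 : ℕ → ℂ → ℂ) (ps : ℕ), SU2 n k c b g ψ R ε y ρ₁ χ G1 ps →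
  (∀ Q ≤ k, H1 n k c b g ψ R ε (ρ₁ / 64) (fun _ => 3 * (ρ₁ / 64)) G1 Q) ∧
  (∑ q ∈ Finset.Icc 1 k, lev n c b g (GW G1) q ((y : ℂ) * I - ρ₁ / 4) ≤ 97 * ε / ρ₁ ^ 2) ∧
  InjOn χ (ball ((y : ℂ) * I) ρ₁) ∧ (∀ q < k, ∀ w ∈ HP (3 * (ρ₁ / 64)), GW G1 q w ≠ c)

/-- P2A: structure of a Phase 2 system [paper, (6.1)].
PROOF. First claim: induction on `q`; for `q = 0` `χ = hat (ψ 0) = GW G1 0` on `HP 0`. On the convex set `ball x (T (q+1)) ∩ HP (3δ)`, which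
contains `w₀`, both `G (q+1)` and `GW G1 (q+1)` are continuous `n`-th roots of `G q - c = GW G1 q - c`, equal at `w₀` (`val`); LRU.
Iterates: for `w ∈ ball x (T q)`, the `q`-th iterate of `z ^ n + c` maps `G q w` to `χ w` (`anti`). Injectivity: NFI (`16 ρ₁ ≤ 1`). MapsTo: TBD and `mp1`.
LevSys: nat0 from `SU2.nat`. Multiplicity: if `q < q'` and `G q w = G q' w'` (`w ∈ ball x (T (q+1))`, `w' ∈ ball x (T (q'+1))`), the `q`-th iterate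
gives `χ w = G (q'-q) w'`, `w ∈ ball x ρ₁`, `w' ∈ ball x (T (q'-q+1))`, so `q'-q = ps` (`disj`). Three elements `q₁<q₂<q₃` of `F` would give
`q₂-q₁ = q₃-q₂ = q₃-q₁ = ps`. Last claim: the same with all radii `r ≤ T Q`. -/
def P2A_stmt : Prop := ∀ (n k : ℕ) [NeZero k] (c : ℂ) (b g : ZMod k → ℂ) (ψ : ZMod k → ℂ → ℂ)
  (R ε y ρ₁ : ℝ) (χ : ℂ → ℂ) (G1 : ℕ → ℂ → ℂ) (ps : ℕ) (T : ℕ → ℝ) (G : ℕ → ℂ → ℂ) (Q : ℕ),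
  H2 n k c b g ψ R ε y ρ₁ χ G1 ps T G Q →
  (∀ q ≤ Q, ∀ w ∈ ball ((y : ℂ) * I) (T q), w.re < -(3 * (ρ₁ / 64)) → G q w = GW G1 q w) ∧
  (∀ q ≤ Q, InjOn (G q) (ball ((y : ℂ) * I) (T q))) ∧
  (∀ q ≤ Q, MapsTo (G q) (ball ((y : ℂ) * I) (T q)) (ball 0 R)) ∧
  (∀ q ≤ Q, LevSys n c b g G (ball ((y : ℂ) * I) (T q)) q) ∧
  (∀ (z : ℂ) (F : Finset ℕ), (∀ q ∈ F, q < Q ∧ z ∈ G q '' ball ((y : ℂ) * I) (T (q + 1))) →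
    F.card ≤ 2) ∧
  (∀ r, r ≤ T Q → (1 ≤ Q → Q ≠ ps →
      Disjoint (G Q '' ball ((y : ℂ) * I) r) (χ '' ball ((y : ℂ) * I) ρ₁)) →
    ∀ (z : ℂ) (F : Finset ℕ), (∀ q ∈ F, q ≤ Q ∧ z ∈ G q '' ball ((y : ℂ) * I) r) → F.card ≤ 2) ∧
  (∑ q ∈ Finset.Icc 1 Q, lev n c b g G q ((y : ℂ) * I - ρ₁ / 4) ≤ 97 * ε / ρ₁ ^ 2)

/-- P2L: the `L¹` bound [paper, (6.2)].
PROOF. For `w ∈ ball x ρ₁` the levels `q ∈ Icc 1 Q` with `w ∈ ball x (T q)` form an initial segment; LV (first) there, so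
`∑_q ∫_{D (T q)} ∑_j (‖bet q j‖ - re bet q j) ≤ ∑_{q<Q} ∫_{D (T (q+1))} dens (G q) ≤ 2 (2π log‖ρ‖ + 3∫‖er‖)` (MA, `M = 2`), and
`∑ ∫_{D (T q)} ‖eef (q-1)‖ ≤ 2 ∫‖er‖`; both together `≤ 2ε`. All the balls contain `D (3ρ₁/4) ⊇ ball w₀ (3ρ₁/8)`. HAR (first) on
`ball w₀ (3ρ₁/8)`: `∫ ∑‖bet‖ ≤ 2ε + π (9/64) ρ₁² S₀`, `S₀ = ∑_{q,j} ‖bet q j w₀‖ ≤ 97 ε/ρ₁²` (P2A). HSM on `ball x (ρ₁/8) ⊆ ball w₀ (3ρ₁/8)`: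
`∑‖bet q j x‖ ≤ (64/(π ρ₁²)) (2ε + π (9/64) ρ₁² S₀) ≤ 41 ε/ρ₁² + 9·97 ε/ρ₁² ≤ 914 ε/ρ₁²`. Then for every `q` (HAR first, centre `x`, radius `T q ≤ ρ₁`):
`∫_{D (T q)} ∑_j ‖bet q j‖ ≤ ∫ ∑_j (‖bet‖ - re) + π ρ₁² ∑_j ‖bet q j x‖`; sum over `q`: `≤ 2ε + 914 π ε ≤ 2900 ε`, plus `2ε`. -/
def P2L_stmt : Prop := ∀ (n k : ℕ) [NeZero k] (c : ℂ) (b g : ZMod k → ℂ) (ψ : ZMod k → ℂ → ℂ)
  (R ε y ρ₁ : ℝ) (χ : ℂ → ℂ) (G1 : ℕ → ℂ → ℂ) (ps : ℕ) (T : ℕ → ℝ) (G : ℕ → ℂ → ℂ) (Q : ℕ),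
  H2 n k c b g ψ R ε y ρ₁ χ G1 ps T G Q →
  ∑ q ∈ Finset.Icc 1 Q, ∫⁻ w in ball ((y : ℂ) * I) (T q), ENNReal.ofReal (lev n c b g G q w) ≤
    ENNReal.ofReal (4000 * ε)

/-- MU2: the measure of layers [paper, (6.4)].
PROOF. `μ` = image under `w ↦ ρ₁ - ‖w - x‖` of `∑_q` (volume on `ball x (T q)` with density `lev q`). P2L gives `μ univ`. Domination: HSM on
`ball w (t/2)`, on which `ρ₁ - ‖· - x‖ ∈ Ioo (s+t/2) (s+3t/2)`, in particular it is in `ball x (T p)` (`ρ₁ - T p ≤ s`). -/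
def MU2_stmt : Prop := ∀ (n k : ℕ) [NeZero k] (c : ℂ) (b g : ZMod k → ℂ) (ψ : ZMod k → ℂ → ℂ)
  (R ε y ρ₁ : ℝ) (χ : ℂ → ℂ) (G1 : ℕ → ℂ → ℂ) (ps : ℕ) (T : ℕ → ℝ) (G : ℕ → ℂ → ℂ) (Q : ℕ),
  H2 n k c b g ψ R ε y ρ₁ χ G1 ps T G Q →
  ∃ μ : Measure ℝ, μ univ ≤ ENNReal.ofReal (4000 * ε) ∧ Mu2 n c b g y ρ₁ T G Q μ

/-- PT2: pointwise bounds [paper, (6.3)]. PROOF. HSM on `ball w t`, P2L: `4000/π ≤ 1300`; LV. -/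
def PT2_stmt : Prop := ∀ (n k : ℕ) [NeZero k] (c : ℂ) (b g : ZMod k → ℂ) (ψ : ZMod k → ℂ → ℂ)
  (R ε y ρ₁ : ℝ) (χ : ℂ → ℂ) (G1 : ℕ → ℂ → ℂ) (ps : ℕ) (T : ℕ → ℝ) (G : ℕ → ℂ → ℂ) (Q : ℕ),
  H2 n k c b g ψ R ε y ρ₁ χ G1 ps T G Q → ∀ p, 1 ≤ p → p ≤ Q → ∀ (w : ℂ) (t : ℝ), 0 < t →
  ‖w - (y : ℂ) * I‖ + t ≤ T p →
    ∑ q ∈ Finset.Icc 1 p, lev n c b g G q w ≤ 1300 * ε / t ^ 2 ∧
    ‖tau b g G p w - 1‖ ≤ ∑ q ∈ Finset.Icc 1 p, lev n c b g G q w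

/-- REACH2 [paper, (6.4)].
PROOF. `w₁ ∈ D r`, `v₁ ∈ D ρ₁` with `G p w₁ = χ v₁`. `w₂` = `w₁` if `‖w₁ - x‖ ≤ r - ρ₁/8`, else the point of the segment `[w₁, x]` with
`‖w₂ - x‖ = r - ρ₁/8`. On `[w₂, w₀]` the distance to the circle of radius `r ≤ T p` is `≥ ρ₁/8` (`‖w₀ - x‖ = ρ₁/4 ≤ r - ρ₁/8`), PT2: `‖tau p - 1‖ ≤
83200 ε/ρ₁² ≤ 1/4`; its length is `≤ 9ρ₁/8`, so its `‖tau‖^{1/2}`-length is `≤ 1.26 ρ₁`. The length of `[w₁,w₂]` is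
`≤ ρ₁/8 + ∫_{t₀}^{ρ₁/8} ‖tau p - 1‖^{1/2} dt`, where `t = r - ‖w - x‖`, and by `Mu2` with `s = ρ₁ - r`: `‖tau p - 1‖ ≤ (4/(π t²)) μ(Ioo (s+t/2) (s+3t/2))`, so the integral is
`≤ PsiM μ (ρ₁/8) (ρ₁-r)`. If that is `< ρ₁` then the total length is `< 3ρ₁` and NPL twice (`χ` natural on `ball x (16ρ₁) ⊇ ball v₁ (3ρ₁)`; `G p` on `ball x (T p)`) gives
`v₃` with `‖v₃ - v₁‖ < 3ρ₁`, `χ v₃ = G p w₀ = GW G1 p w₀ ∈ ψ (-p) '' ball 0 1` (P2A, INC1 for `G1` with `Q = p`: `δ² = ρ₁²/4096`, `Re w₀ = -16δ`). NHP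
(`ρ = ρ₁`, `v₃ ∈ ball x (5ρ₁)`): `χ (x + 6ρ₁) ∈ ψ (-p) '' ball 0 1`, so `p = ps` by `SU2.hps`. -/
def REACH2_stmt : Prop := ∀ (n k : ℕ) [NeZero k] (c : ℂ) (b g : ZMod k → ℂ) (ψ : ZMod k → ℂ → ℂ)
  (R ε y ρ₁ : ℝ) (χ : ℂ → ℂ) (G1 : ℕ → ℂ → ℂ) (ps : ℕ) (T : ℕ → ℝ) (G : ℕ → ℂ → ℂ) (Q : ℕ)
  (μ : Measure ℝ), H2 n k c b g ψ R ε y ρ₁ χ G1 ps T G Q → ε ≤ ρ₁ ^ 2 / 10 ^ 7 →
  Mu2 n c b g y ρ₁ T G Q μ → ∀ (p : ℕ) (r : ℝ), 1 ≤ p → p < k → p ≤ Q → p ≠ ps →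
  3 * ρ₁ / 4 < r → r ≤ T p →
  ¬ Disjoint (G p '' ball ((y : ℂ) * I) r) (χ '' ball ((y : ℂ) * I) ρ₁) →
    ENNReal.ofReal ρ₁ ≤ PsiM μ (ρ₁ / 8) (ρ₁ - r)

/-- EV2A: the chain [paper, (6.5)].
PROOF. `d = ρ₁/32`, `‖w_c - x‖ ≤ r - d`. `c` is not a value of `GW G1 Q` on `HP (3δ)` (P2H), so by P2A `Re w_c ≥ -3δ` and `‖w_c - w₀‖ ≥ 13ρ₁/64 > d/2`. `w₁` on
`[w₀, w_c]` with `‖w₁ - w_c‖ = d/2`. `N` = open `d/2`-neighbourhood of `[w₀, w₁]`: convex, does not contain `w_c`, is in `ball x (r - d/2)`; `c` is not a value of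
`G Q` on `N` (injectivity). LR: `g'` on `N`, `g' w₀ = GW G1 (Q+1) w₀`. `G' = Function.update G (Q+1) g'` is a LevSys on `N` with `Q+1` levels.
HCH with `r := d/2`, `m = 160` (`‖w₁ - w₀‖ ≤ 5ρ₁/4`), `ν = 2ε` (LV first with `Q' = Q+1`, MA with `M = 2` and `Ω q = N`), for the family `bet q j`, `1 ≤ q ≤ Q+1`, `1 ≤ j < n`; at `w₀` the
sum is `≤ 97 ε/ρ₁²` (agreement with Phase 1 near `w₀`, also of level `Q+1`: on `N ∩ HP (3δ)`, LRU). So at `w₁` it is `≤ 4^160 (97 + 5300) ε/ρ₁²`. The `eef q`,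
`q ≤ Q`, are holomorphic on `ball w₁ (d/2) ⊆ N`, HSM and MA: `∑ ‖eef q w₁‖ ≤ ε/(π (d/2)²) ≤ 1400 ε/ρ₁²`. Hence the claim (`4^167`), as
`‖tau (Q+1) w₁ - 1‖ ≤ ∑ lev`. -/
def EV2A_stmt : Prop := ∀ (n k : ℕ) [NeZero k] (c : ℂ) (b g : ZMod k → ℂ) (ψ : ZMod k → ℂ → ℂ)
  (R ε y ρ₁ : ℝ) (χ : ℂ → ℂ) (G1 : ℕ → ℂ → ℂ) (ps : ℕ) (T : ℕ → ℝ) (G : ℕ → ℂ → ℂ) (Q : ℕ),
  H2 n k c b g ψ R ε y ρ₁ χ G1 ps T G Q → Q < k → ∀ (r : ℝ) (wc : ℂ), 3 * ρ₁ / 4 < r → r ≤ T Q →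
  (1 ≤ Q → Q ≠ ps → Disjoint (G Q '' ball ((y : ℂ) * I) r) (χ '' ball ((y : ℂ) * I) ρ₁)) →
  ‖wc - (y : ℂ) * I‖ ≤ r - ρ₁ / 32 → G Q wc = c →
  ∃ (w₁ : ℂ) (N : Set ℂ) (g' : ℂ → ℂ), ‖w₁ - wc‖ = ρ₁ / 64 ∧ IsOpen N ∧ w₁ ∈ N ∧
    N ⊆ ball ((y : ℂ) * I) r ∧ LevSys n c b g (Function.update G (Q + 1) g') N (Q + 1) ∧
    ∑ q ∈ Finset.Icc 1 (Q + 1), lev n c b g (Function.update G (Q + 1) g') q w₁ ≤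
      4 ^ 167 * ε / ρ₁ ^ 2

/-- EV2 [paper, (6.5)].
PROOF. Otherwise EV2A. `d = ρ₁/32`, `ball w_c d ⊆ ball x r`, `‖w₁ - w_c‖ = d/2`. Branch sums on `ball w_c d` are `≤ ∑_{q ≤ Q} dens (G q)` (LV second), integral `≤ 2ε` (MA, `M = 2`,
P2A). EVT with `y₁ = g' w₁`, `ν = 2ε` and LEI (brv = bet): `‖tau (Q+1) w₁‖ ≤ 4^20 (4^167 ε/ρ₁² + 24·1024 ε/ρ₁²) < 1/2` while
`‖tau (Q+1) w₁ - 1‖ ≤ 4^167 ε/ρ₁² ≤ 1/4`. -/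
def EV2_stmt : Prop := ∀ (n k : ℕ) [NeZero k] (c : ℂ) (b g : ZMod k → ℂ) (ψ : ZMod k → ℂ → ℂ)
  (R ε y ρ₁ : ℝ) (χ : ℂ → ℂ) (G1 : ℕ → ℂ → ℂ) (ps : ℕ) (T : ℕ → ℝ) (G : ℕ → ℂ → ℂ) (Q : ℕ),
  H2 n k c b g ψ R ε y ρ₁ χ G1 ps T G Q → Q < k → ε ≤ ρ₁ ^ 2 / 4 ^ 200 →
  ∀ (r : ℝ) (wc : ℂ), 3 * ρ₁ / 4 < r → r ≤ T Q →
  (1 ≤ Q → Q ≠ ps → Disjoint (G Q '' ball ((y : ℂ) * I) r) (χ '' ball ((y : ℂ) * I) ρ₁)) →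
  wc ∈ ball ((y : ℂ) * I) r → G Q wc = c → r - ‖wc - (y : ℂ) * I‖ < ρ₁ / 32

/-- MEAS2: the total loss of radius [paper, (6.4), (6.5)].
PROOF. MU2. Almost every `r ∈ (t, ρ₁)` is in some `(T (q+1), T q)`, `q < Q`, or in `(t, T Q)` (level `Q`), and the level `q` fails at `r`. Either (i) `q ≥ 1`, `q ≠ ps` and not
disjoint: REACH2: `PsiM μ (ρ₁/8) (ρ₁ - r) ≥ ρ₁`; CHEB: measure `≤ 16 (ρ₁/8) 4000 ε/(π ρ₁²) ≤ 0.01 ρ₁`. Or (ii) `c ∈ G q '' ball x r` with level `q` good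
(disjoint or `q = 0` or `q = ps`). For given `q` the `r` of type (ii) form a set of diameter `≤ ρ₁/32` (for `r < r'`: same `w_c` by injectivity, `‖w_c - x‖ < r` and EV2 at `r'`).
At most two `q` occur: for `q₁ < q₂` of type (ii) at `r₁ > r₂`, `c = G q₁ w = G q₂ w'`, the `q₁`-th iterate: `χ w = G (q₂-q₁) w'`, and `w' ∈ ball x r₂ ⊆
ball x (T (q₂-q₁+1))` if `q₁ ≥ 1` (`disj`), while for `q₁ = 0` use goodness at `r₂`; so `q₂ - q₁ = ps`. Three such `q` are impossible. Total `ρ₁ - t ≤ ρ₁/16 + 0.01ρ₁`. -/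
def MEAS2_stmt : Prop := ∀ (n k : ℕ) [NeZero k] (c : ℂ) (b g : ZMod k → ℂ) (ψ : ZMod k → ℂ → ℂ)
  (R ε y ρ₁ : ℝ) (χ : ℂ → ℂ) (G1 : ℕ → ℂ → ℂ) (ps : ℕ) (T : ℕ → ℝ) (G : ℕ → ℂ → ℂ) (Q : ℕ),
  H2 n k c b g ψ R ε y ρ₁ χ G1 ps T G Q → Q < k → ε ≤ ρ₁ ^ 2 / 4 ^ 200 → T 0 = ρ₁ →
  (∀ q < Q, ∀ r, T (q + 1) < r → r < T q → Fail2 c y ρ₁ χ ps G q r) →
  ∀ t, 3 * ρ₁ / 4 ≤ t → t ≤ T Q → (∀ r, t < r → r < T Q → Fail2 c y ρ₁ χ ps G Q r) →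
    3 * ρ₁ / 4 < t

/-- STEP2: one more level.
PROOF. `S = {r | 3ρ₁/4 < r ≤ T Q, ¬ Fail2 .. Q r}`. If `S` is empty, the hypothesis with `t = 3ρ₁/4` is contradictory. Let `t' = sSup S`. `¬ Fail2` at `t'` (the ball of
radius `t'` is the union of smaller ones of radii in `S`; `¬ Fail2` is inherited by smaller `r`), `t' > 3ρ₁/4`. `g'` = `n`-th root (LR) of `G Q - c` on
`ball x t'` with the value `GW G1 (Q+1) w₀` at `w₀` (its `n`-th power is `GW G1 Q w₀ - c = G Q w₀ - c`, P2A/`Sys2.val` and `Sys1.rel`). -/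
def STEP2_stmt : Prop := ∀ (n k : ℕ) [NeZero k] (c : ℂ) (b g : ZMod k → ℂ) (ψ : ZMod k → ℂ → ℂ)
  (R ε y ρ₁ : ℝ) (χ : ℂ → ℂ) (G1 : ℕ → ℂ → ℂ) (ps : ℕ) (T : ℕ → ℝ) (G : ℕ → ℂ → ℂ) (Q : ℕ),
  H2 n k c b g ψ R ε y ρ₁ χ G1 ps T G Q → Q < k →
  (∀ t, 3 * ρ₁ / 4 ≤ t → t ≤ T Q → (∀ r, t < r → r < T Q → Fail2 c y ρ₁ χ ps G Q r) →
    3 * ρ₁ / 4 < t) →
  ∃ (t' : ℝ) (g' : ℂ → ℂ),
    H2 n k c b g ψ R ε y ρ₁ χ G1 ps (Function.update T (Q + 1) t') (Function.update G (Q + 1) g')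
      (Q + 1) ∧ ∀ r, t' < r → r < T Q → Fail2 c y ρ₁ χ ps G Q r

/-- PH2: conclusion of Phase 2 [paper, (6.6)].
PROOF. Induction on `Q ≤ k`: there are `T`, `G` with `H2 .. Q`, `T 0 = ρ₁` and failure on `(T (q+1), T q)` for `q < Q` (start: `Q = 0`, `G 0 = χ`, `T 0 = ρ₁`; step: MEAS2, STEP2). For
`Q = k` take `r = T k` and restrict. -/
def PH2_stmt : Prop := ∀ (n k : ℕ) [NeZero k] (c : ℂ) (b g : ZMod k → ℂ) (ψ : ZMod k → ℂ → ℂ)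
  (R ε y ρ₁ : ℝ) (χ : ℂ → ℂ) (G1 : ℕ → ℂ → ℂ) (ps : ℕ), SU2 n k c b g ψ R ε y ρ₁ χ G1 ps →
  ε ≤ ρ₁ ^ 2 / 4 ^ 200 → ∃ (r : ℝ) (G : ℕ → ℂ → ℂ), H2 n k c b g ψ R ε y ρ₁ χ G1 ps (fun _ => r) G k

/-- ROT: rotation of flat discs [paper, (6.7)].
PROOF. PT2 (`p = k`): on `D (5ρ₁/8)`, `‖tau k - 1‖ ≤ 1300·64 ε/ρ₁² ≤ 0.01`. INC1 for `G1`, `Q = k`: `Φ₁` on `HP (3δ+δ/8)`, `κ = -log ρ = -(Λ + iθ)`, `θ = arg ρ`. Let `σ = √(tau k)` (principal) on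
`D (5ρ₁/8)` and `Φ w = Φ₁ w₀ + ∫_{w₀}^w σ` (primitive on a disc); near `w₀`, `Φ₁' = σ` (`Φ₁'^2 = tau`, `‖Φ₁' - 1‖ ≤ 1/4`), so `Φ = Φ₁` on `D (5ρ₁/8) ∩ HP (3δ+δ/8)` (convex).
`‖Φ w - w - κ‖ ≤ δ/32 + 0.01 ρ₁ ≤ ρ₁/64`, `‖Φ' - 1‖ ≤ 0.01`; `Λ ≤ ε/(2π) ≤ ρ₁/64`. `v₀ = x - iθ = i (y - θ)`. For `v ∈ ball v₀ (ρ₁/4)` the contraction `w ↦ v - κ - (Φ w - w - κ)` of
`closedBall x (3ρ₁/8)` has a unique fixed point `h v` (`Φ (h v) = v`); `h` is holomorphic (inverse function). `χ₁ = G k ∘ h` on `ball v₀ (ρ₁/4)` is natural: `χ₁'^2 BB(χ₁) = tau k/(Φ')² = 1`, it avoids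
the `b j` (LEA). For `v` near `v₀ - ρ₁/8`: `w = h v` has `Re w ≤ -ρ₁/8 + ρ₁/32 < -(3δ + δ/4)`, so `hat (ψ 0) v = hat (ψ (-k)) (Φ w) = GW G1 k w = G k w = χ₁ v` (INC1, P2A; `-(k : ZMod k) = 0`).
By the identity theorem `χ₁ = hat (ψ 0)` on the convex set `ball v₀ (ρ₁/4) ∩ HP 0`. Glue: `hat (ψ 0)` on `HP 0`, `χ₁` on the ball. -/
def ROT_stmt : Prop := ∀ (n k : ℕ) [NeZero k] (c : ℂ) (b g : ZMod k → ℂ) (ψ : ZMod k → ℂ → ℂ)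
  (R ε y ρ₁ r : ℝ) (χ : ℂ → ℂ) (G1 : ℕ → ℂ → ℂ) (ps : ℕ) (G : ℕ → ℂ → ℂ),
  H2 n k c b g ψ R ε y ρ₁ χ G1 ps (fun _ => r) G k → ε ≤ ρ₁ ^ 2 / 10 ^ 7 →
  Flat b g (ψ 0) (y - (rho n b).arg) (ρ₁ / 4)

/-- FR: rotation of flat discs, final form.
PROOF. By TR it suffices to treat `i = 0` (shift the base point: `b' j = b (i+j)` etc.). `ρ₁ = ρ₀/16`, `δ = ρ₁/64`. `R₀` = maximum of the bound of NG for `δ` (then `MapsTo (ψ 0) (ball 0 (exp (-δ))) (ball 0 R)`) and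
the bound of NGF for `ρ₀` (`ρ₀/16 = ρ₁`). `ε₀ = min (δ³/10^16) (ρ₁²/4^200)`. PH1 gives `G1`. `ps`: the unique `p` with `1 ≤ p < k` and `χ (x+6ρ₁) ∈ ψ (-p) '' ball 0 1`, if there is one (uniqueness: ND; `p ↦ -p` is injective on
`[1,k)`), else `0`. So `SU2`; PH2, ROT. `ρ₁/4 = ρ₀/64`. -/
def FR_stmt : Prop := ∀ (n : ℕ) (ρ₀ : ℝ), 2 ≤ n → 0 < ρ₀ → ρ₀ ≤ 1 → ∃ R₀ : ℝ, 4 ≤ R₀ ∧
  ∃ ε₀ > (0 : ℝ), ∀ (k : ℕ) [NeZero k] (c : ℂ) (b g : ZMod k → ℂ) (ψ : ZMod k → ℂ → ℂ) (R ε : ℝ),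
    SU n k c b g ψ R ε → R₀ ≤ R → ε ≤ ε₀ → ∀ (i : ZMod k) (y : ℝ), Flat b g (ψ i) y ρ₀ →
      Flat b g (ψ i) (y - (rho n b).arg) (ρ₀ / 64)

end MPS
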